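import Pool.Agent.H29.Bi.Odd

set_option autoImplicit false

/-!
Bicirculants given by their connection sets.
-/

namespace Pool.Agent.H29.Bi

open Finset SimpleGraph H931R3.LA

variable {p : ℕ} [hp : Fact p.Prime]

/-- `G` is the bicirculant with sets of radii `S i` in the layers and set of cross midpoints `T`. -/
structure IsBC (G : SimpleGraph (VV p)) (S : Bool → Finset (ZMod p)) (T : Finset (ZMod p)) :
    Prop where
  lay : ∀ i x y, G.Adj (i, x) (i, x + 2 * y) ↔ y ∈ S i
  crs : ∀ i x y, G.Adj (i, x) (!i, 2 * y - x) ↔ y ∈ T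

theorem IsBC.zero {G : SimpleGraph (VV p)} {S : Bool → Finset (ZMod p)} {T : Finset (ZMod p)}
    (h : IsBC G S T) (i : Bool) : (0 : ZMod p) ∉ S i := by
  intro h0
  have h1 := (h.lay i 0 0).2 h0
  rw [mul_zero, add_zero] at h1
  exact h1.ne rfl

theorem IsBC.neg {G : SimpleGraph (VV p)} {S : Bool → Finset (ZMod p)} {T : Finset (ZMod p)}
    (h : IsBC G S T) (i : Bool) : ∀ x ∈ S i, -x ∈ S i := by
  intro x hx
  have h1 := (h.lay i 0 x).2 hx
  have h3 := (h.lay i (0 + 2 * x) (-x)).1 (by
    have e : (0 : ZMod p) + 2 * x + 2 * -x = 0 := by ring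
    rw [e]
    exact h1.symm)
  exact h3

theorem IsBC.deg (h2 : p ≠ 2) {G : SimpleGraph (VV p)} {S : Bool → Finset (ZMod p)}
    {T : Finset (ZMod p)} (h : IsBC G S T) (v : VV p) :
    (G.neighborSet v).ncard = (S v.1).card + T.card := by
  classical
  obtain ⟨i, x⟩ := v
  have h2' := two_ne h2
  have e : G.neighborSet (i, x) = ((fun y => (i, x + 2 * y)) '' (S i : Set (ZMod p))) ∪
      ((fun y => (!i, 2 * y - x)) '' (T : Set (ZMod p))) := by
    ext ⟨j, z⟩
    rw [Set.mem_union, Set.mem_image, Set.mem_image, mem_neighborSet]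
    constructor
    · intro hadj
      by_cases hij : i = j
      · subst hij
        left
        have hz : x + 2 * ((z - x) / 2) = z := by field_simp; ring
        refine ⟨(z - x) / 2, ?_, by rw [hz]⟩
        rw [← hz] at hadj
        exact (h.lay _ _ _).1 hadj
      · have hj : j = !i := not_eq hij
        subst hj
        right
        have hz : 2 * ((x + z) / 2) - x = z := by field_simp; ring
        refine ⟨(x + z) / 2, ?_, by rw [hz]⟩
        rw [← hz] at hadj
        exact (h.crs _ _ _).1 hadj
    · rintro (⟨y, hy, h3⟩ | ⟨y, hy, h3⟩)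
      · rw [← h3]
        exact (h.lay _ _ _).2 hy
      · rw [← h3]
        exact (h.crs _ _ _).2 hy
  rw [e, Set.ncard_union_eq, Set.ncard_image_of_injective, Set.ncard_image_of_injective,
    Set.ncard_coe_finset, Set.ncard_coe_finset]
  · intro a b hab
    have h3 : 2 * a - x = 2 * b - x := congrArg Prod.snd hab
    exact cancel2 h2 (by linear_combination h3)
  · intro a b hab
    have h3 : x + 2 * a = x + 2 * b := congrArg Prod.snd hab
    exact cancel2 h2 (by linear_combination h3)
  · rw [Set.disjoint_left]
    rintro _ ⟨y, _, rfl⟩ ⟨z, _, h3⟩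
    have h4 : (!i) = i := congrArg Prod.fst h3
    revert h4
    cases i <;> simp

/-- Even degree. -/
theorem IsBC.cov_even (h2 : p ≠ 2) {G : SimpleGraph (VV p)} {S : Bool → Finset (ZMod p)}
    {T : Finset (ZMod p)} (h : IsBC G S T) (hST : (S false).card = (S true).card)
    (hT : Even T.card) : Cov G (((S false).card + T.card + 2) / 2) := by
  classical
  obtain ⟨k, s, hk, hs0, hs⟩ := half h2 (S false) (h.zero false) (h.neg false)
  obtain ⟨k', s', hk', hs0', hs'⟩ := half h2 (S true) (h.zero true) (h.neg true)
  have hkk : k' = k := by omega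
  subst hkk
  obtain ⟨m, hm⟩ := hT
  -- pair up `T`
  obtain ⟨f, g, hfg, hfT⟩ : ∃ f g : ℕ → ZMod p, (∀ i < m, f i ≠ g i) ∧
      ∀ x, x ∈ T ↔ ∃ i < m, x = f i ∨ x = g i := by
    obtain ⟨R, hR, hRc⟩ := Finset.exists_subset_card_eq (s := T) (n := m) (by omega)
    have h4 : (T \ R).card = m := by
      rw [Finset.card_sdiff_of_subset hR, hm, hRc]
      omega
    obtain ⟨f, hf, hf'⟩ := enum R m hRc
    obtain ⟨g, hg, hg'⟩ := enum (T \ R) m h4
    refine ⟨f, g, ?_, ?_⟩
    · intro i hi h
      exact (Finset.mem_sdiff.1 (hg i hi)).2 (h ▸ hf i hi)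
    · intro x
      constructor
      · intro hx
        by_cases h5 : x ∈ R
        · obtain ⟨i, hi, h6⟩ := hf' x h5
          exact ⟨i, hi, Or.inl h6.symm⟩
        · obtain ⟨i, hi, h6⟩ := hg' x (Finset.mem_sdiff.2 ⟨hx, h5⟩)
          exact ⟨i, hi, Or.inr h6.symm⟩
      · rintro ⟨i, hi, rfl | rfl⟩
        · exact hR (hf i hi)
        · exact (Finset.mem_sdiff.1 (hg i hi)).1
  have e : ((S false).card + T.card + 2) / 2 = k' + m + 1 := by omega
  rw [e]
  have h2' := two_ne h2
  have hSb : ∀ (i : Bool) x, x ∈ S i ↔ ∃ j < k', x = (if i then s' j else s j) ∨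
      x = -(if i then s' j else s j) := by
    intro i x
    cases i
    · simpa using hs x
    · simpa using hs' x
  refine Bi.cov_even h2 k' m (fun j i => if i then s' j else s j) f g ?_ hfg G ?_
  · intro j hj i
    cases i
    · simpa using hs0 j hj
    · simpa using hs0' j hj
  · rintro ⟨i, x⟩ ⟨j, y⟩
    by_cases hij : i = j
    · subst hij
      have hz : y = x + 2 * ((y - x) / 2) := by field_simp; ring
      have h3 := h.lay i x ((y - x) / 2)
      rw [← hz] at h3
      have h0 := h.zero i
      rw [h3]
      constructor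
      · intro hmem
        have hne : x ≠ y := by
          intro h'
          rw [h', sub_self, zero_div] at hmem
          exact h0 hmem
        obtain ⟨l, hl, h4⟩ := (hSb i _).1 hmem
        left
        refine ⟨l, hl, fun h => hne (congrArg Prod.snd h), rfl, ?_⟩
        rcases h4 with h4 | h4
        · left
          show y = x + 2 * (if i then s' l else s l)
          rw [← h4]; exact hz
        · right
          show x = y + 2 * (if i then s' l else s l)
          have h5 : (if i then s' l else s l) = -((y - x) / 2) := by rw [h4, neg_neg]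
          rw [h5]
          field_simp
          ring
      · rintro (⟨l, hl, _, _, h4⟩ | ⟨_, _, h4, _⟩)
        · rw [hSb]
          refine ⟨l, hl, ?_⟩
          have h4' : y = x + 2 * (if i then s' l else s l) ∨
            x = y + 2 * (if i then s' l else s l) := h4
          rcases h4' with h4 | h4
          · left
            rw [div_eq_iff h2', h4]; ring
          · right
            rw [div_eq_iff h2', h4]; ring
        · exact absurd rfl h4
    · have hj : j = !i := not_eq hij
      subst hj
      have hz : y = 2 * ((x + y) / 2) - x := by field_simp; ring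
      have h3 := h.crs i x ((x + y) / 2)
      rw [← hz] at h3
      rw [h3, hfT]
      have hhalf : ∀ z : ZMod p, (x + y) / 2 = z ↔ x + y = 2 * z := by
        intro z
        rw [div_eq_iff h2', mul_comm]
      constructor
      · rintro ⟨l, hl, h5⟩
        right
        refine ⟨l, hl, hij, ?_⟩
        rw [hhalf, hhalf] at h5
        exact h5
      · rintro (⟨_, _, _, h5, _⟩ | ⟨l, hl, _, h5⟩)
        · exact absurd h5 hij
        · refine ⟨l, hl, ?_⟩
          rw [hhalf, hhalf]
          exact h5

/-- Odd degree. -/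
theorem IsBC.cov_odd (h2 : p ≠ 2) {G : SimpleGraph (VV p)} {S : Bool → Finset (ZMod p)}
    {T : Finset (ZMod p)} (h : IsBC G S T) (hST : S false = S true)
    (hT : Odd T.card) (hT0 : (0 : ZMod p) ∈ T) : Cov G (((S false).card + T.card + 2) / 2) := by
  obtain ⟨k, _, hk, _, _⟩ := half h2 (S false) (h.zero false) (h.neg false)
  have h3 := cov_dihedral h2 (S false) T (h.zero false) (h.neg false) hT0 hT G (by
    intro i x y
    cases i
    · exact h.lay false x y
    · rw [hST]; exact h.lay true x y) h.crs
  obtain ⟨m, hm⟩ := hT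
  have e : ((S false).card + T.card + 2) / 2 = ((S false).card + T.card + 1) / 2 := by omega
  rwa [e]

end Pool.Agent.H29.Bi
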