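import Pool.Agent.H29.L.R_seed8.TH525.FRG.Hom

set_option autoImplicit false

/-!
Bicirculant graphs over `ℤ/p` in sum coordinates: basic lemmas, the forests.
-/

namespace Pool.Agent.H29.Bi

open Finset SimpleGraph H931R3.LA

/-- In a graph of maximum degree two, a cycle is a whole component. -/
theorem closed_cycle {V : Type} [Finite V] {F G : SimpleGraph V} (hFG : F ≤ G)
    (hdeg : ∀ v, (G.neighborSet v).ncard ≤ 2) {v : V} {c : F.Walk v v} (hc : c.IsCycle) :
    ∀ w, G.Reachable v w → w ∈ c.support ∧ (G.neighborSet w).ncard = 2 ∧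
      ∀ u, G.Adj w u → F.Adj w u := by
  have key : ∀ w ∈ c.support, (G.neighborSet w).ncard = 2 ∧
      ∀ u, G.Adj w u → u ∈ c.support ∧ F.Adj w u := by
    intro w hw
    have h2 := hc.ncard_neighborSet_toSubgraph_eq_two hw
    have hsub : c.toSubgraph.neighborSet w ⊆ G.neighborSet w := by
      intro u hu
      exact hFG (hu : c.toSubgraph.Adj w u).adj_sub
    have heq : c.toSubgraph.neighborSet w = G.neighborSet w :=
      Set.eq_of_subset_of_ncard_le hsub (by rw [h2]; exact hdeg w) (Set.toFinite _)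
    refine ⟨by rw [← heq, h2], fun u hu => ?_⟩
    have h3 : u ∈ c.toSubgraph.neighborSet w := by rw [heq]; exact hu
    have h4 : c.toSubgraph.Adj w u := h3
    refine ⟨?_, h4.adj_sub⟩
    have := h4.snd_mem
    rwa [Walk.mem_verts_toSubgraph] at this
  intro w hw
  have hmem : w ∈ c.support := by
    obtain ⟨p⟩ := hw
    have : ∀ {x y : V} (q : G.Walk x y), x ∈ c.support → y ∈ c.support := by
      intro x y q
      induction q with
      | nil => exact id
      | cons h _ ih => exact fun hx => ih ((key _ hx).2 _ h).1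
    exact this p (Walk.start_mem_support c)
  exact ⟨hmem, (key w hmem).1, fun u hu => ((key w hmem).2 u hu).2⟩

theorem cov_of_type {V τ : Type} [Finite τ] {G : SimpleGraph V} (F : τ → SimpleGraph V)
    (hF : ∀ t, IsLF (F t)) (hG : (⨆ t, F t) = G) : Cov G (Nat.card τ) := by
  refine ⟨fun i => F ((Finite.equivFin τ).symm i), fun i => hF _, ?_⟩
  rw [← hG]
  exact (Finite.equivFin τ).symm.iSup_comp (g := F)

theorem la_eq_of_cov {V : Type} [Finite V] [Nonempty V] {G : SimpleGraph V} {r : ℕ} (hr : 0 < r)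
    (hreg : ∀ v, (G.neighborSet v).ncard = r) (h : Cov G ((r + 2) / 2)) :
    la G = (r + 2) / 2 := by
  have h1 := la_le h
  have h2 : Cov G (la G) := la_le_iff.1 le_rfl
  have h3 := lower hr h2 hreg
  omega

/-- Every component of the graph `G` of maximum degree two contains an edge missing in `F`. -/
theorem isLF_of_cut {V : Type} [Finite V] {F G : SimpleGraph V} (hFG : F ≤ G)
    (hdeg : ∀ v, (G.neighborSet v).ncard ≤ 2)
    (h : ∀ v, ∃ w u, G.Reachable v w ∧ G.Adj w u ∧ ¬ F.Adj w u) : IsLF F := by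
  refine ⟨fun v c hc => ?_, fun v =>
    (Set.ncard_le_ncard (fun u hu => hFG hu) (Set.toFinite _)).trans (hdeg v)⟩
  obtain ⟨w, u, h1, h2, h3⟩ := h v
  exact h3 ((closed_cycle hFG hdeg hc w h1).2.2 u h2)

/-- Every component of the graph `G` of maximum degree two has an end. -/
theorem isLF_of_end {V : Type} [Finite V] {G : SimpleGraph V}
    (hdeg : ∀ v, (G.neighborSet v).ncard ≤ 2)
    (h : ∀ v, ∃ w, G.Reachable v w ∧ (G.neighborSet w).ncard ≤ 1) : IsLF G := by
  refine ⟨fun v c hc => ?_, hdeg⟩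
  obtain ⟨w, h1, h2⟩ := h v
  have := (closed_cycle le_rfl hdeg hc w h1).2.1
  omega

theorem deg2 {V : Type} [Finite V] {G : SimpleGraph V} {v : V} (a b : V)
    (h : ∀ u, G.Adj v u → u = a ∨ u = b) : (G.neighborSet v).ncard ≤ 2 := by
  have h1 : G.neighborSet v ⊆ {a, b} := fun u hu => by
    simpa using h u hu
  exact (Set.ncard_le_ncard h1 (Set.toFinite _)).trans (by
    have := Set.ncard_insert_le a {b}
    rwa [Set.ncard_singleton] at this)

theorem deg1 {V : Type} [Finite V] {G : SimpleGraph V} {v : V} (a : V)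
    (h : ∀ u, G.Adj v u → u = a) : (G.neighborSet v).ncard ≤ 1 := by
  have h1 : G.neighborSet v ⊆ {a} := fun u hu => by
    simpa using h u hu
  exact (Set.ncard_le_ncard h1 (Set.toFinite _)).trans (Set.ncard_singleton a).le

theorem reach_steps {V : Type} {G : SimpleGraph V} (f : ℕ → V) (N : ℕ)
    (h : ∀ n < N, G.Reachable (f 0) (f n) → G.Reachable (f 0) (f (n + 1))) :
    ∀ n ≤ N, G.Reachable (f 0) (f n) := by
  intro n
  induction n with
  | zero => intro _; exact Reachable.refl _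
  | succ n ih => intro hn; exact h n (by omega) (ih (by omega))

variable {p : ℕ} [hp : Fact p.Prime]

theorem exists_mul {d : ZMod p} (hd : d ≠ 0) (x : ZMod p) :
    ∃ n : ℕ, n ≤ p - 1 ∧ x = n * d := by
  refine ⟨(x / d).val, ?_, ?_⟩
  · have := ZMod.val_lt (x / d)
    omega
  · rw [ZMod.natCast_zmod_val, div_mul_cancel₀ _ hd]

theorem two_ne (h2 : p ≠ 2) : (2 : ZMod p) ≠ 0 := by
  intro h
  have h1 : ((2 : ℕ) : ZMod p) = 0 := by exact_mod_cast h
  rw [ZMod.natCast_eq_zero_iff] at h1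
  have := (Nat.prime_dvd_prime_iff_eq hp.out Nat.prime_two).1 h1
  exact h2 this

theorem nat_ne {n : ℕ} (h0 : 0 < n) (hn : n < p) : (n : ZMod p) ≠ 0 := by
  intro h
  rw [ZMod.natCast_eq_zero_iff] at h
  have := Nat.le_of_dvd h0 h
  omega

theorem cancel2 (h2 : p ≠ 2) {x y : ZMod p} (h : 2 * x = 2 * y) : x = y :=
  mul_left_cancel₀ (two_ne h2) h

/-- The vertices. -/
abbrev VV (p : ℕ) : Type := Bool × ZMod p

/-- Layer edges of radius `s i` in layer `i`. -/
def LG (s : Bool → ZMod p) : SimpleGraph (VV p) where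
  Adj u v := u ≠ v ∧ u.1 = v.1 ∧ (v.2 = u.2 + 2 * s u.1 ∨ u.2 = v.2 + 2 * s u.1)
  symm := ⟨fun u v h => ⟨h.1.symm, h.2.1.symm, by rw [← h.2.1]; exact h.2.2.symm⟩⟩
  loopless := ⟨fun u h => h.1 rfl⟩

/-- Cross edges with midpoints `t`, `t'`. -/
def CG (t t' : ZMod p) : SimpleGraph (VV p) where
  Adj u v := u.1 ≠ v.1 ∧ (u.2 + v.2 = 2 * t ∨ u.2 + v.2 = 2 * t')
  symm := ⟨fun u v h => ⟨h.1.symm, by rw [add_comm]; exact h.2⟩⟩
  loopless := ⟨fun u h => h.1 rfl⟩

theorem LG_deg (s : Bool → ZMod p) (v : VV p) : ((LG s).neighborSet v).ncard ≤ 2 := by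
  refine deg2 (v.1, v.2 + 2 * s v.1) (v.1, v.2 - 2 * s v.1) ?_
  rintro ⟨j, y⟩ ⟨_, h1, h2⟩
  rcases h2 with h2 | h2
  · left; exact Prod.ext h1.symm h2
  · right; exact Prod.ext h1.symm (by show y = v.2 - _; rw [h2]; ring)

theorem LG_adj {s : Bool → ZMod p} (h2 : p ≠ 2) (hs : ∀ i, s i ≠ 0) (i : Bool) (x : ZMod p) :
    (LG s).Adj (i, x) (i, x + 2 * s i) := by
  refine ⟨?_, rfl, Or.inl rfl⟩
  intro h
  have h1 : x = x + 2 * s i := congrArg Prod.snd h
  have h3 : 2 * s i = 0 := by linear_combination -h1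
  rcases mul_eq_zero.1 h3 with h4 | h4
  · exact two_ne h2 h4
  · exact hs i h4

theorem LG_reach {s : Bool → ZMod p} (h2 : p ≠ 2) (hs : ∀ i, s i ≠ 0) (i : Bool) (x y : ZMod p) :
    (LG s).Reachable (i, x) (i, y) := by
  obtain ⟨n, _, hn⟩ := exists_mul (mul_ne_zero (two_ne h2) (hs i)) (y - x)
  have key : ∀ n : ℕ, (LG s).Reachable (i, x) (i, x + n * (2 * s i)) := by
    intro n
    induction n with
    | zero => simp
    | succ n ih =>
      refine ih.trans ?_
      have h := LG_adj h2 hs i (x + n * (2 * s i))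
      have e : x + n * (2 * s i) + 2 * s i = x + ((n + 1 : ℕ) : ZMod p) * (2 * s i) := by
        push_cast; ring
      rw [e] at h
      exact h.reachable
  have h := key n
  rw [← hn] at h
  rwa [add_sub_cancel] at h

/-- The layer edges of radius `s i` without the edge with midpoint `c i`. -/
def LGc (s c : Bool → ZMod p) : SimpleGraph (VV p) where
  Adj u v := (LG s).Adj u v ∧ u.2 + v.2 ≠ 2 * c u.1
  symm := ⟨fun u v h => ⟨h.1.symm, by rw [add_comm, ← h.1.2.1]; exact h.2⟩⟩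
  loopless := ⟨fun u h => h.1.1 rfl⟩

theorem LGc_lf (h2 : p ≠ 2) {s c : Bool → ZMod p} (hs : ∀ i, s i ≠ 0) : IsLF (LGc s c) := by
  refine isLF_of_cut (G := LG s) (fun u v h => h.1) (LG_deg s) ?_
  rintro ⟨i, x⟩
  refine ⟨(i, c i - s i), (i, c i + s i), LG_reach h2 hs i _ _, ?_, ?_⟩
  · have h := LG_adj h2 hs i (c i - s i)
    have e : c i - s i + 2 * s i = c i + s i := by ring
    rwa [e] at h
  · intro h
    apply h.2
    show c i - s i + (c i + s i) = 2 * c i
    ring

theorem CG_deg (t t' : ZMod p) (v : VV p) : ((CG t t').neighborSet v).ncard ≤ 2 := by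
  refine deg2 (!v.1, 2 * t - v.2) (!v.1, 2 * t' - v.2) ?_
  rintro ⟨j, y⟩ ⟨h1, h2⟩
  have hj : j = !v.1 := by
    have h1' : v.1 ≠ j := h1
    revert h1'
    cases j <;> cases v.1 <;> simp
  rcases h2 with h2 | h2
  · left; exact Prod.ext hj (by show y = 2 * t - v.2; rw [← h2]; ring)
  · right; exact Prod.ext hj (by show y = 2 * t' - v.2; rw [← h2]; ring)

theorem CG_reach (h2 : p ≠ 2) {t t' : ZMod p} (ht : t ≠ t') (i : Bool) (x y : ZMod p) :
    (CG t t').Reachable (i, x) (i, y) := by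
  have hd : 2 * t - 2 * t' ≠ 0 := fun h => ht (cancel2 h2 (sub_eq_zero.1 h))
  obtain ⟨n, _, hn⟩ := exists_mul hd (y - x)
  have key : ∀ n : ℕ, (CG t t').Reachable (i, x) (i, x + n * (2 * t - 2 * t')) := by
    intro n
    induction n with
    | zero => simp
    | succ n ih =>
      refine ih.trans ?_
      have h1 : (CG t t').Adj (i, x + n * (2 * t - 2 * t')) (!i, 2 * t' - (x + n * (2 * t - 2 * t'))) :=
        ⟨by cases i <;> simp, Or.inr (by ring)⟩
      have h3 : (CG t t').Adj (!i, 2 * t' - (x + n * (2 * t - 2 * t')))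
          (i, x + ((n + 1 : ℕ) : ZMod p) * (2 * t - 2 * t')) :=
        ⟨by cases i <;> simp, Or.inl (by push_cast; ring)⟩
      exact h1.reachable.trans h3.reachable
  have h := key n
  rw [← hn] at h
  rwa [add_sub_cancel] at h

/-- The cross edges without the edge of sum `2 t` and difference zero. -/
def CGc (t t' : ZMod p) : SimpleGraph (VV p) where
  Adj u v := u.1 ≠ v.1 ∧ ((u.2 + v.2 = 2 * t ∧ u.2 ≠ v.2) ∨ u.2 + v.2 = 2 * t')
  symm := ⟨fun u v h => ⟨h.1.symm, by
    rw [add_comm, ne_comm]; exact h.2⟩⟩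
  loopless := ⟨fun u h => h.1 rfl⟩

theorem CGc_lf (h2 : p ≠ 2) {t t' : ZMod p} (ht : t ≠ t') : IsLF (CGc t t') := by
  refine isLF_of_cut (G := CG t t') (fun u v h => ⟨h.1, h.2.imp (fun h => h.1) id⟩) (CG_deg t t') ?_
  rintro ⟨i, x⟩
  refine ⟨(i, t), (!i, t), CG_reach h2 ht i _ _, ⟨by cases i <;> simp, Or.inl (by ring)⟩, ?_⟩
  rintro ⟨_, h | h⟩
  · exact h.2 rfl
  · apply ht
    have h' : t + t = 2 * t' := h
    refine cancel2 h2 ?_
    rw [← h']; ring

end Pool.Agent.H29.Bi
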