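import Pool.Agent.H29.Bi.BC

set_option autoImplicit false

/-!
Coordinates from an automorphism of order `p` without fixed points.
-/

namespace Pool.Agent.H29.Bi

open Finset SimpleGraph H931R3.LA

section coord

variable {p : ℕ} [hp : Fact p.Prime] {V : Type}

/-- The power of `σ` with exponent `x : ℤ/p`. -/
def pw (σ : Equiv.Perm V) (x : ZMod p) : Equiv.Perm V := σ ^ x.val

theorem pw_add {σ : Equiv.Perm V} (h : σ ^ p = 1) (x y : ZMod p) :
    pw σ (x + y) = pw σ x * pw σ y := by
  unfold pw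
  rw [ZMod.val_add, ← pow_eq_pow_mod _ h, pow_add]

theorem pw_zero (σ : Equiv.Perm V) : pw σ (0 : ZMod p) = 1 := by
  unfold pw
  rw [ZMod.val_zero, pow_zero]

theorem pw_one (σ : Equiv.Perm V) : pw σ (1 : ZMod p) = σ := by
  unfold pw
  have : Fact (1 < p) := ⟨hp.out.one_lt⟩
  rw [ZMod.val_one, pow_one]

theorem pw_fix {σ : Equiv.Perm V} (h : σ ^ p = 1) (hfix : ∀ v, σ v ≠ v) {x : ZMod p} {v : V}
    (hx : pw σ x v = v) : x = 0 := by
  by_contra hne
  have key : ∀ n : ℕ, pw σ ((n : ZMod p) * x) v = v := by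
    intro n
    induction n with
    | zero => simp [pw_zero]
    | succ n ih =>
      have e : ((n + 1 : ℕ) : ZMod p) * x = n * x + x := by push_cast; ring
      rw [e, pw_add h, Equiv.Perm.mul_apply, hx, ih]
  have h1 := key (x⁻¹).val
  rw [ZMod.natCast_zmod_val, inv_mul_cancel₀ hne, pw_one] at h1
  exact hfix v h1

theorem pw_inj {σ : Equiv.Perm V} (h : σ ^ p = 1) (hfix : ∀ v, σ v ≠ v) {x y : ZMod p} {v : V}
    (hx : pw σ x v = pw σ y v) : x = y := by
  have h1 : pw σ (-y + x) v = v := by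
    rw [pw_add h, Equiv.Perm.mul_apply, hx, ← Equiv.Perm.mul_apply, ← pw_add h]
    simp [pw_zero]
  have h3 := pw_fix h hfix h1
  linear_combination h3

/-- The coordinates. -/
def cmap (σ : Equiv.Perm V) (a b : V) (v : VV p) : V :=
  if v.1 then pw σ (-v.2) b else pw σ v.2 a

theorem cmap_bij [Finite V] {σ : Equiv.Perm V} (h : σ ^ p = 1) (hfix : ∀ v, σ v ≠ v)
    (hV : Nat.card V = 2 * p) {a b : V} (hab : ∀ x : ZMod p, pw σ x a ≠ b) :
    Function.Bijective (cmap (p := p) σ a b) := by
  have hcross : ∀ x y : ZMod p, pw σ x a ≠ pw σ y b := by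
    intro x y hxy
    apply hab (-y + x)
    rw [pw_add h, Equiv.Perm.mul_apply, hxy, ← Equiv.Perm.mul_apply, ← pw_add h]
    simp [pw_zero]
  have hinj : Function.Injective (cmap (p := p) σ a b) := by
    rintro ⟨i, x⟩ ⟨j, y⟩ hxy
    cases i <;> cases j
    · have h1 : pw σ x a = pw σ y a := hxy
      rw [pw_inj h hfix h1]
    · exact absurd hxy (hcross x (-y))
    · exact absurd hxy.symm (hcross y (-x))
    · have h1 : pw σ (-x) b = pw σ (-y) b := hxy
      rw [neg_injective (pw_inj h hfix h1)]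
  have := Fintype.ofFinite V
  rw [Fintype.bijective_iff_injective_and_card]
  refine ⟨hinj, ?_⟩
  rw [Fintype.card_prod, Fintype.card_bool, ZMod.card, ← Nat.card_eq_fintype_card, hV]

theorem exists_other [Finite V] (σ : Equiv.Perm V) (hV : Nat.card V = 2 * p) (a : V) :
    ∃ b, ∀ x : ZMod p, pw σ x a ≠ b := by
  by_contra hcon
  push Not at hcon
  have h1 : Function.Surjective (fun x : ZMod p => pw σ x a) := hcon
  have h3 := Nat.card_le_card_of_surjective _ h1
  rw [hV, Nat.card_zmod] at h3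
  have := hp.out.pos
  omega

variable {G : SimpleGraph V} {σ : Equiv.Perm V}

theorem pw_adj (hσ : ∀ u v, G.Adj (σ u) (σ v) ↔ G.Adj u v) (x : ZMod p) (u v : V) :
    G.Adj (pw σ x u) (pw σ x v) ↔ G.Adj u v := by
  unfold pw
  have key : ∀ n : ℕ, ∀ u v, G.Adj ((σ ^ n) u) ((σ ^ n) v) ↔ G.Adj u v := by
    intro n
    induction n with
    | zero => intro u v; simp
    | succ n ih =>
      intro u v
      rw [pow_succ, Equiv.Perm.mul_apply, Equiv.Perm.mul_apply, ih, hσ]
  exact key _ u v

open Classical in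
/-- The bicirculant structure. -/
theorem isBC (h : σ ^ p = 1) (hσ : ∀ u v, G.Adj (σ u) (σ v) ↔ G.Adj u v) (a b : V) :
    IsBC (p := p) (G.comap (cmap (p := p) σ a b))
      (fun i => if i then univ.filter (fun y => G.Adj b (pw σ (-2 * y) b))
        else univ.filter (fun y => G.Adj a (pw σ (2 * y) a)))
      (univ.filter (fun y => G.Adj a (pw σ (-2 * y) b))) := by
  constructor
  · intro i x y
    cases i
    · show G.Adj (pw σ x a) (pw σ (x + 2 * y) a) ↔
        y ∈ univ.filter (fun y => G.Adj a (pw σ (2 * y) a))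
      rw [pw_add h, Equiv.Perm.mul_apply, pw_adj hσ, mem_filter]
      simp
    · show G.Adj (pw σ (-x) b) (pw σ (-(x + 2 * y)) b) ↔
        y ∈ univ.filter (fun y => G.Adj b (pw σ (-2 * y) b))
      have e : -(x + 2 * y) = -x + -2 * y := by ring
      rw [e, pw_add h, Equiv.Perm.mul_apply, pw_adj hσ, mem_filter]
      simp
  · intro i x y
    cases i
    · show G.Adj (pw σ x a) (pw σ (-(2 * y - x)) b) ↔
        y ∈ univ.filter (fun y => G.Adj a (pw σ (-2 * y) b))
      have e : -(2 * y - x) = x + -2 * y := by ring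
      rw [e, pw_add h, Equiv.Perm.mul_apply, pw_adj hσ, mem_filter]
      simp
    · show G.Adj (pw σ (-x) b) (pw σ (2 * y - x) a) ↔
        y ∈ univ.filter (fun y => G.Adj a (pw σ (-2 * y) b))
      have e : -x = (2 * y - x) + -2 * y := by ring
      rw [adj_comm, e, pw_add h, Equiv.Perm.mul_apply]
      rw [pw_adj hσ, mem_filter]
      simp

theorem ncard_comap {W : Type} [Finite V] (e : W ≃ V) (v : W) :
    ((G.comap e).neighborSet v).ncard = (G.neighborSet (e v)).ncard := by
  rw [← Set.ncard_image_of_injective _ e.injective]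
  congr 1
  ext u
  constructor
  · rintro ⟨w, hw, rfl⟩
    exact hw
  · intro hu
    exact ⟨e.symm u, by
      show G.Adj (e v) (e (e.symm u))
      rw [e.apply_symm_apply]; exact hu, e.apply_symm_apply u⟩

end coord

end Pool.Agent.H29.Bi
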