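import Pool.Agent.H29.Bi.Base

set_option autoImplicit false

/-!
Bicirculant graphs over `ℤ/p` of even degree.
-/

namespace Pool.Agent.H29.Bi

open Finset SimpleGraph H931R3.LA

variable {p : ℕ} [hp : Fact p.Prime]

/-- The zigzag graph. -/
def QA (c : Bool → ZMod p) : SimpleGraph (VV p) where
  Adj u v := u ≠ v ∧ ((u.1 = v.1 ∧ u.2 + v.2 = 2 * c u.1) ∨ (u.1 ≠ v.1 ∧ u.2 = v.2))
  symm := ⟨fun u v h => ⟨h.1.symm, h.2.imp (fun h => ⟨h.1.symm, by rw [add_comm, ← h.1]; exact h.2⟩)
    (fun h => ⟨h.1.symm, h.2.symm⟩)⟩⟩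
  loopless := ⟨fun u h => h.1 rfl⟩

theorem not_eq {i j : Bool} (h : i ≠ j) : j = !i := by
  revert h
  cases i <;> cases j <;> simp

theorem QA_nb (c : Bool → ZMod p) (v u : VV p) (h : (QA c).Adj v u) :
    u = (v.1, 2 * c v.1 - v.2) ∨ u = (!v.1, v.2) := by
  obtain ⟨j, y⟩ := u
  obtain ⟨_, ⟨h1, h2⟩ | ⟨h1, h2⟩⟩ := h
  · left
    exact Prod.ext h1.symm (by show y = _; rw [← h2]; ring)
  · right
    exact Prod.ext (not_eq h1) h2.symm

theorem QA_E (c : Bool → ZMod p) (i : Bool) (x : ZMod p) :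
    (QA c).Reachable (i, x) (i, 2 * c i - x) := by
  by_cases h : x = 2 * c i - x
  · rw [← h]
  · refine Adj.reachable ⟨fun h' => h (congrArg Prod.snd h'), Or.inl ⟨rfl, ?_⟩⟩
    show x + (2 * c i - x) = _
    ring

theorem QA_C (c : Bool → ZMod p) (i : Bool) (x : ZMod p) :
    (QA c).Reachable (i, x) (!i, x) := by
  refine Adj.reachable ⟨fun h' => ?_, Or.inr ⟨by cases i <;> simp, rfl⟩⟩
  have h1 : i = !i := congrArg Prod.fst h'
  revert h1
  cases i <;> simp

theorem QA_lf (h2 : p ≠ 2) {c : Bool → ZMod p} (hc : c false ≠ c true) : IsLF (QA c) := by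
  have hd : 2 * c false - 2 * c true ≠ 0 := fun h => hc (cancel2 h2 (sub_eq_zero.1 h))
  have step : ∀ x, (QA c).Reachable (false, x) (false, x + (2 * c false - 2 * c true)) := by
    intro x
    refine (QA_C c false x).trans ((QA_E c true x).trans ((QA_C c true _).trans ?_))
    have h := QA_E c false (2 * c true - x)
    have e : 2 * c false - (2 * c true - x) = x + (2 * c false - 2 * c true) := by ring
    rwa [e] at h
  have key : ∀ (n : ℕ) x, (QA c).Reachable (false, x)
      (false, x + n * (2 * c false - 2 * c true)) := by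
    intro n
    induction n with
    | zero => intro x; simp
    | succ n ih =>
      intro x
      refine (ih x).trans ?_
      have h := step (x + n * (2 * c false - 2 * c true))
      have e : x + n * (2 * c false - 2 * c true) + (2 * c false - 2 * c true) =
          x + ((n + 1 : ℕ) : ZMod p) * (2 * c false - 2 * c true) := by push_cast; ring
      rwa [e] at h
  have key2 : ∀ x, (QA c).Reachable (false, x) (false, c false) := by
    intro x
    obtain ⟨n, _, hn⟩ := exists_mul hd (c false - x)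
    have h := key n x
    rw [← hn] at h
    rwa [add_sub_cancel] at h
  refine isLF_of_end (fun v => deg2 _ _ (QA_nb c v)) ?_
  rintro ⟨i, x⟩
  refine ⟨(false, c false), ?_, ?_⟩
  · cases i
    · exact key2 x
    · exact (QA_C c true x).trans (key2 x)
  · refine deg1 (!false, c false) ?_
    intro u hu
    rcases QA_nb c _ u hu with h | h
    · exfalso
      apply hu.1
      rw [h]
      refine Prod.ext rfl ?_
      show c false = 2 * c false - c false
      ring
    · exact h

theorem card_idx (k m : ℕ) : Nat.card (Option (Fin k ⊕ Fin m)) = k + m + 1 := by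
  rw [Nat.card_eq_fintype_card, Fintype.card_option, Fintype.card_sum, Fintype.card_fin,
    Fintype.card_fin]

/-- Bicirculant graphs of even degree. -/
theorem cov_even (h2 : p ≠ 2) (k m : ℕ) (s : ℕ → Bool → ZMod p) (f g : ℕ → ZMod p)
    (hs : ∀ j < k, ∀ i, s j i ≠ 0) (hfg : ∀ i < m, f i ≠ g i) (G : SimpleGraph (VV p))
    (hG : ∀ u v, G.Adj u v ↔ (∃ j < k, (LG (s j)).Adj u v) ∨ ∃ i < m, (CG (f i) (g i)).Adj u v) :
    Cov G (k + m + 1) := by
  let c : Bool → ZMod p := fun i => if i then 1 else 0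
  have hc : c false ≠ c true := by
    show (0 : ZMod p) ≠ 1
    exact zero_ne_one
  rw [← card_idx]
  refine cov_of_type (fun o => match o with
    | none => QA c ⊓ G
    | some (Sum.inl j) => LGc (s j) c
    | some (Sum.inr i) => CGc (f i) (g i)) ?_ ?_
  · rintro (_ | j | i)
    · have h := QA_lf h2 hc
      exact ⟨h.1.anti inf_le_left, fun v => (Set.ncard_le_ncard (fun u hu => hu.1)
        (Set.toFinite _)).trans (h.2 v)⟩
    · exact LGc_lf h2 (hs j j.2)
    · exact CGc_lf h2 (hfg i i.2)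
  · ext u v
    rw [iSup_adj]
    constructor
    · rintro ⟨_ | j | i, h⟩
      · exact h.2
      · exact (hG u v).2 (Or.inl ⟨j, j.2, h.1⟩)
      · exact (hG u v).2 (Or.inr ⟨i, i.2, h.1, h.2.imp (fun h => h.1) id⟩)
    · intro h
      rcases (hG u v).1 h with ⟨j, hj, h'⟩ | ⟨i, hi, h'⟩
      · by_cases h1 : u.2 + v.2 = 2 * c u.1
        · exact ⟨none, ⟨h'.1, Or.inl ⟨h'.2.1, h1⟩⟩, h⟩
        · exact ⟨some (Sum.inl ⟨j, hj⟩), h', h1⟩
      · by_cases h1 : u.2 = v.2
        · exact ⟨none, ⟨h.ne, Or.inr ⟨h'.1, h1⟩⟩, h⟩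
        · refine ⟨some (Sum.inr ⟨i, hi⟩), h'.1, ?_⟩
          rcases h'.2 with h3 | h3
          · exact Or.inl ⟨h3, h1⟩
          · exact Or.inr h3

end Pool.Agent.H29.Bi
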