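import Pool.Agent.H29.Bi.Coord

set_option autoImplicit false

/-!
Main theorems: graphs with an automorphism of order `p` and two orbits; Cayley graphs on groups of
order `2 p`; vertex-transitive graphs of order `2 p`.
-/

namespace Pool.Agent.H29.Bi

open Finset SimpleGraph H931R3.LA

variable {p : ℕ} [hp : Fact p.Prime]

/-- Even degree. -/
theorem la_even (h2 : p ≠ 2) {V : Type} [Finite V] (hV : Nat.card V = 2 * p)
    (G : SimpleGraph V) (σ : Equiv.Perm V) (h : σ ^ p = 1) (hfix : ∀ v, σ v ≠ v)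
    (hσ : ∀ u v, G.Adj (σ u) (σ v) ↔ G.Adj u v) (r : ℕ) (hr : 0 < r) (he : Even r)
    (hreg : ∀ v, (G.neighborSet v).ncard = r) : la G = (r + 2) / 2 := by
  classical
  have hpos := hp.out.pos
  have : Nonempty V := (Nat.card_pos_iff.1 (by rw [hV]; omega)).1
  obtain ⟨a⟩ := id this
  obtain ⟨b, hb⟩ := exists_other (p := p) σ hV a
  let e := Equiv.ofBijective _ (cmap_bij (p := p) h hfix hV hb)
  have hBC := isBC (p := p) (G := G) h hσ a b
  set S : Bool → Finset (ZMod p) := (fun i => if i then
    univ.filter (fun y => G.Adj b (pw σ (-2 * y) b))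
    else univ.filter (fun y => G.Adj a (pw σ (2 * y) a))) with hS
  set T : Finset (ZMod p) := univ.filter (fun y => G.Adj a (pw σ (-2 * y) b)) with hT
  have hdeg : ∀ i, (S i).card + T.card = r := by
    intro i
    have h1 := hBC.deg h2 (i, 0)
    have h3 := ncard_comap (G := G) e (i, 0)
    rw [hreg] at h3
    exact h1.symm.trans h3
  obtain ⟨k, _, hk, _, _⟩ := half h2 (S false) (hBC.zero false) (hBC.neg false)
  have hTe : Even T.card := by
    have h1 := hdeg false
    rw [hk] at h1
    rw [← h1, Nat.even_add] at he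
    exact he.1 (even_two_mul k)
  have hcov := hBC.cov_even h2 (by have := hdeg false; have := hdeg true; omega) hTe
  rw [hdeg false] at hcov
  have hcov' : Cov G ((r + 2) / 2) := hcov.iso (Iso.comap e G)
  exact la_eq_of_cov hr hreg hcov'

/-- Odd degree. -/
theorem la_odd (h2 : p ≠ 2) {V : Type} [Finite V] (hV : Nat.card V = 2 * p)
    (G : SimpleGraph V) (σ : Equiv.Perm V) (h : σ ^ p = 1) (hfix : ∀ v, σ v ≠ v)
    (hσ : ∀ u v, G.Adj (σ u) (σ v) ↔ G.Adj u v) (r : ℕ) (ho : Odd r)
    (hreg : ∀ v, (G.neighborSet v).ncard = r) (a : V)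
    (hsym : ∀ b, (∀ x : ZMod p, pw σ x a ≠ b) → ∀ y : ZMod p,
      G.Adj b (pw σ (-2 * y) b) ↔ G.Adj a (pw σ (2 * y) a)) : la G = (r + 2) / 2 := by
  classical
  have hpos := hp.out.pos
  have : Nonempty V := ⟨a⟩
  -- an arbitrary second point
  obtain ⟨b0, hb0⟩ := exists_other (p := p) σ hV a
  have hex : ∃ b, (∀ x : ZMod p, pw σ x a ≠ b) ∧ G.Adj a b := by
    let e := Equiv.ofBijective _ (cmap_bij (p := p) h hfix hV hb0)
    have hBC := isBC (p := p) (G := G) h hσ a b0
    have h1 := hBC.deg h2 (false, 0)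
    have h3 := ncard_comap (G := G) e (false, 0)
    rw [hreg] at h3
    obtain ⟨k, _, hk, _, _⟩ := half h2 _ (hBC.zero false) (hBC.neg false)
    have h4 : (univ.filter (fun y : ZMod p => G.Adj a (pw σ (-2 * y) b0))).card ≠ 0 := by
      intro h5
      have h6 := h1.symm.trans h3
      rw [h5, add_zero] at h6
      obtain ⟨m, hm⟩ := ho
      have h7 := hk.symm.trans h6
      omega
    obtain ⟨y, hy⟩ := Finset.card_ne_zero.1 h4
    refine ⟨pw σ (-2 * y) b0, ?_, (mem_filter.1 hy).2⟩
    intro x hx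
    apply hb0 (2 * y + x)
    rw [pw_add h, Equiv.Perm.mul_apply, hx, ← Equiv.Perm.mul_apply, ← pw_add h]
    have e : 2 * y + -2 * y = 0 := by ring
    rw [e, pw_zero]
    rfl
  obtain ⟨b, hb, hab⟩ := hex
  let e := Equiv.ofBijective _ (cmap_bij (p := p) h hfix hV hb)
  have hBC := isBC (p := p) (G := G) h hσ a b
  set S : Bool → Finset (ZMod p) := (fun i => if i then
    univ.filter (fun y => G.Adj b (pw σ (-2 * y) b))
    else univ.filter (fun y => G.Adj a (pw σ (2 * y) a))) with hS
  set T : Finset (ZMod p) := univ.filter (fun y => G.Adj a (pw σ (-2 * y) b)) with hT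
  have hdeg : (S false).card + T.card = r := by
    have h1 := hBC.deg h2 (false, 0)
    have h3 := ncard_comap (G := G) e (false, 0)
    rw [hreg] at h3
    exact h1.symm.trans h3
  obtain ⟨k, _, hk, _, _⟩ := half h2 (S false) (hBC.zero false) (hBC.neg false)
  have hTo : Odd T.card := by
    have h1 := hdeg
    obtain ⟨m, hm⟩ := ho
    rw [hk] at h1
    exact ⟨m - k, by omega⟩
  have hT0 : (0 : ZMod p) ∈ T := by
    rw [hT, mem_filter]
    refine ⟨mem_univ _, ?_⟩
    rw [mul_zero, pw_zero]
    exact hab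
  have hST : S false = S true := by
    show univ.filter (fun y => G.Adj a (pw σ (2 * y) a)) =
      univ.filter (fun y => G.Adj b (pw σ (-2 * y) b))
    ext y
    rw [mem_filter, mem_filter, hsym b hb]
  have hcov := hBC.cov_odd h2 hST hTo hT0
  rw [hdeg] at hcov
  have hcov' : Cov G ((r + 2) / 2) := hcov.iso (Iso.comap e G)
  exact la_eq_of_cov ho.pos hreg hcov'

/-- Cayley graphs on groups of order `2 p`. -/
theorem la_cayley (h2 : p ≠ 2) {Γ : Type} [Group Γ] (hΓ : Nat.card Γ = 2 * p) (C : Set Γ)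
    (hC : C.Nonempty) (G : SimpleGraph Γ) (hG : ∀ x y, G.Adj x y ↔ x⁻¹ * y ∈ C) :
    (∀ v, (G.neighborSet v).ncard = C.ncard) ∧ la G = (C.ncard + 2) / 2 := by
  have hpos := hp.out.pos
  have : Finite Γ := Nat.finite_of_card_ne_zero (by rw [hΓ]; omega)
  obtain ⟨ρ, hρ⟩ := exists_prime_orderOf_dvd_card' (G := Γ) p ⟨2, by rw [hΓ]; ring⟩
  have hreg : ∀ v, (G.neighborSet v).ncard = C.ncard := by
    intro v
    rw [← Set.ncard_image_of_injective C (mul_right_injective v)]
    congr 1
    ext u
    rw [mem_neighborSet, hG]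
    constructor
    · intro h
      exact ⟨_, h, by simp⟩
    · rintro ⟨c, hc, rfl⟩
      simpa using hc
  refine ⟨hreg, ?_⟩
  have hCpos : 0 < C.ncard := (Set.ncard_pos (Set.toFinite _)).2 hC
  have hinv : ∀ c, c ∈ C → c⁻¹ ∈ C := by
    intro c hc
    have h1 : G.Adj 1 c := (hG 1 c).2 (by simpa using hc)
    simpa using (hG c 1).1 h1.symm
  let σ : Equiv.Perm Γ := Equiv.mulLeft ρ
  have hσn : ∀ (n : ℕ) (g : Γ), (σ ^ n) g = ρ ^ n * g := by
    intro n
    induction n with
    | zero => intro g; simp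
    | succ n ih =>
      intro g
      rw [pow_succ, Equiv.Perm.mul_apply, ih]
      show ρ ^ n * (ρ * g) = _
      rw [pow_succ, mul_assoc]
  have hσp : σ ^ p = 1 := by
    ext g
    rw [hσn, ← hρ, pow_orderOf_eq_one]
    simp
  have hfix : ∀ v, σ v ≠ v := by
    intro v hv
    have h1 : ρ * v = v := hv
    have h3 : ρ = 1 := by simpa using h1
    rw [h3, orderOf_one] at hρ
    exact hp.out.one_lt.ne hρ
  have hσ : ∀ u v, G.Adj (σ u) (σ v) ↔ G.Adj u v := by
    intro u v
    show G.Adj (ρ * u) (ρ * v) ↔ _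
    rw [hG, hG]
    simp [mul_assoc]
  rcases Nat.even_or_odd C.ncard with he | ho
  · exact la_even h2 hΓ G σ hσp hfix hσ _ hCpos he hreg
  · refine la_odd h2 hΓ G σ hσp hfix hσ _ ho hreg 1 ?_
    intro b hb y
    -- the subgroup
    set N := Subgroup.zpowers ρ with hN
    have hNc : Nat.card N = p := by rw [hN, Nat.card_zpowers, hρ]
    have hNi : N.index = 2 := by
      have h1 := N.card_mul_index
      rw [hNc, hΓ, mul_comm 2 p] at h1
      exact Nat.eq_of_mul_eq_mul_left hpos h1
    have hNn : N.Normal := Subgroup.normal_of_index_eq_two hNi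
    have h3 : b⁻¹ * ρ * b ∈ N := by
      have := hNn.conj_mem ρ (Subgroup.mem_zpowers ρ) b⁻¹
      simpa using this
    obtain ⟨k, hk⟩ := Subgroup.mem_zpowers_iff.1 h3
    have hbb : b * b ∈ N := Subgroup.mul_self_mem_of_index_two hNi b
    obtain ⟨l, hl⟩ := Subgroup.mem_zpowers_iff.1 hbb
    have h4 : ρ ^ (k * k) = ρ := by
      have e1 : b⁻¹ * (ρ ^ k) * b = ρ ^ (k * k) := by
        rw [zpow_mul, hk]
        have := conj_zpow (i := k) (a := b⁻¹) (b := ρ)
        rw [inv_inv] at this
        rw [this, hk]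
      have e3 : b⁻¹ * (b⁻¹ * ρ * b) * b = (b * b)⁻¹ * ρ * (b * b) := by
        group
      rw [← e1, hk, e3, ← hl]
      group
    have h5 : b⁻¹ * ρ * b = ρ ∨ b⁻¹ * ρ * b = ρ⁻¹ := by
      have h6 : ρ ^ (k * k - 1) = 1 := by
        rw [zpow_sub, h4, zpow_one, mul_inv_cancel]
      have h7 := orderOf_dvd_iff_zpow_eq_one.2 h6
      rw [hρ] at h7
      have e1 : k * k - 1 = (k - 1) * (k + 1) := by ring
      rw [e1] at h7
      rcases (Nat.prime_iff_prime_int.1 hp.out).dvd_or_dvd h7 with h8 | h8
      · left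
        rw [← hρ, orderOf_dvd_iff_zpow_eq_one, zpow_sub, zpow_one, mul_inv_eq_one] at h8
        rw [← hk, h8]
      · right
        rw [← hρ, orderOf_dvd_iff_zpow_eq_one, zpow_add, zpow_one, mul_eq_one_iff_eq_inv] at h8
        rw [← hk, h8]
    have h9 : ρ ^ (-2 * y).val = (ρ ^ (2 * y).val)⁻¹ := by
      rw [eq_inv_iff_mul_eq_one]
      have h10 : pw σ (-2 * y + 2 * y) 1 = 1 := by
        have e1 : -2 * y + 2 * y = 0 := by ring
        rw [e1, pw_zero]
        rfl
      rw [pw_add hσp, Equiv.Perm.mul_apply] at h10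
      unfold pw at h10
      rw [hσn, hσn, mul_one] at h10
      exact h10
    have hmem : ∀ c : Γ, c⁻¹ ∈ C ↔ c ∈ C := fun c =>
      ⟨fun h => by simpa using hinv _ h, hinv c⟩
    rw [hG, hG]
    unfold pw
    rw [hσn, hσn, mul_one, inv_one, one_mul]
    have h11 : b⁻¹ * (ρ ^ (-2 * y).val * b) = (b⁻¹ * ρ * b) ^ (-2 * y).val := by
      have := conj_pow (i := (-2 * y).val) (a := b⁻¹) (b := ρ)
      rw [inv_inv] at this
      rw [this, mul_assoc]
    rw [h11]
    rcases h5 with h5 | h5
    · rw [h5, h9, hmem]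
    · rw [h5, inv_pow, h9, inv_inv]

/-- A transitive permutation group of degree `2 p` contains a permutation of order `p` without
fixed points. -/
theorem exists_semiregular (h2 : p ≠ 2) {V : Type} [Finite V] (hV : Nat.card V = 2 * p)
    (A : Subgroup (Equiv.Perm V)) (htr : ∀ u v : V, ∃ σ ∈ A, σ u = v) :
    ∃ σ ∈ A, σ ^ p = 1 ∧ ∀ v, σ v ≠ v := by
  classical
  have hpos := hp.out.pos
  have := Fintype.ofFinite V
  have hfin : Finite A := inferInstance
  obtain ⟨P⟩ : Nonempty (Sylow p A) := inferInstance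
  -- fixed points of `P`
  have hstab : ∀ v : V, (MulAction.stabilizer A v).index = 2 * p := by
    intro v
    rw [MulAction.index_stabilizer]
    have h1 : MulAction.orbit A v = Set.univ := by
      ext u
      simp only [Set.mem_univ, iff_true]
      obtain ⟨σ, hσ, h⟩ := htr v u
      exact ⟨⟨σ, hσ⟩, h⟩
    rw [h1, Set.ncard_univ, hV]
  set Q : Subgroup A := (P : Subgroup A) with hQdef
  have hQp : IsPGroup p Q := P.isPGroup'
  have hQi : ¬ p ∣ Q.index := P.not_dvd_index
  have hp3 : 3 ≤ p := by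
    have := hp.out.two_le
    omega
  have horb : ∀ v : V, (MulAction.orbit Q v).ncard = p := by
    intro v
    obtain ⟨n, hn⟩ := hQp.card_orbit v
    have hle : (MulAction.orbit Q v).ncard ≤ 2 * p := by
      rw [← hV, ← Set.ncard_univ]
      exact Set.ncard_le_ncard (Set.subset_univ _) (Set.toFinite _)
    have hn' : (MulAction.orbit Q v).ncard = p ^ n := hn
    rcases Nat.lt_or_ge n 2 with h | h
    · interval_cases n
      · exfalso
        rw [pow_zero, Set.ncard_eq_one] at hn'
        obtain ⟨w, hw⟩ := hn'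
        have hvw : v = w := by
          have : v ∈ MulAction.orbit Q v := MulAction.mem_orbit_self v
          rw [hw] at this
          exact this
        have hle : Q ≤ MulAction.stabilizer A v := by
          intro g hg
          rw [MulAction.mem_stabilizer_iff]
          have : (⟨g, hg⟩ : Q) • v ∈ MulAction.orbit Q v := MulAction.mem_orbit _ _
          rw [hw] at this
          exact this.trans hvw.symm
        have h1 := Subgroup.index_dvd_of_le hle
        rw [hstab] at h1
        exact hQi ((Dvd.intro_left 2 rfl).trans h1)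
      · rw [hn', pow_one]
    · exfalso
      have h1 : p ^ 2 ≤ p ^ n := Nat.pow_le_pow_right hpos h
      rw [hn'] at hle
      nlinarith
  have hKi : ∀ v : V, (MulAction.stabilizer Q v).index = p := by
    intro v
    rw [MulAction.index_stabilizer, horb]
  have hKn : ∀ v : V, (MulAction.stabilizer Q v).Normal := by
    intro v
    apply Subgroup.normal_of_index_eq_minFac_card
    rw [hKi]
    obtain ⟨n, hn⟩ := IsPGroup.iff_card.1 hQp
    have hn0 : n ≠ 0 := by
      rintro rfl
      have h1 := (MulAction.stabilizer Q v).index_dvd_card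
      rw [hKi, hn, pow_zero] at h1
      exact hp.out.one_lt.ne' (Nat.dvd_one.1 h1)
    rw [hn, hp.out.pow_minFac hn0]
  have : Nonempty V := (Nat.card_pos_iff.1 (by rw [hV]; omega)).1
  obtain ⟨v0⟩ := this
  obtain ⟨v1, hv1⟩ : ∃ v1, v1 ∉ MulAction.orbit Q v0 := by
    by_contra hcon
    push Not at hcon
    have h1 : MulAction.orbit Q v0 = Set.univ := Set.eq_univ_of_forall hcon
    have h3 := horb v0
    rw [h1, Set.ncard_univ, hV] at h3
    omega
  have hcover : ∀ v, v ∈ MulAction.orbit Q v0 ∨ v ∈ MulAction.orbit Q v1 := by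
    have hdisj : Disjoint (MulAction.orbit Q v0) (MulAction.orbit Q v1) := by
      rw [Set.disjoint_left]
      intro w hw0 hw1
      apply hv1
      rw [← MulAction.orbit_eq_iff.2 hw0, MulAction.orbit_eq_iff.2 hw1]
      exact MulAction.mem_orbit_self v1
    have h1 : (MulAction.orbit Q v0 ∪ MulAction.orbit Q v1).ncard = 2 * p := by
      rw [Set.ncard_union_eq hdisj, horb, horb]
      ring
    have h3 : MulAction.orbit Q v0 ∪ MulAction.orbit Q v1 = Set.univ := by
      apply Set.eq_of_subset_of_ncard_le (Set.subset_univ _) _ (Set.toFinite _)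
      rw [Set.ncard_univ, hV, h1]
    intro v
    have : v ∈ MulAction.orbit Q v0 ∪ MulAction.orbit Q v1 := by rw [h3]; trivial
    exact this
  have hproper : ∀ v : V, ∃ x : Q, x ∉ MulAction.stabilizer Q v := by
    intro v
    by_contra hcon
    push Not at hcon
    have h1 : MulAction.stabilizer Q v = ⊤ := by
      rw [eq_top_iff]
      exact fun x _ => hcon x
    have h3 := hKi v
    rw [h1, Subgroup.index_top] at h3
    exact hp.out.one_lt.ne h3
  obtain ⟨g, hg0, hg1⟩ : ∃ g : Q, g ∉ MulAction.stabilizer Q v0 ∧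
      g ∉ MulAction.stabilizer Q v1 := by
    obtain ⟨x, hx⟩ := hproper v0
    obtain ⟨y, hy⟩ := hproper v1
    by_cases hx1 : x ∈ MulAction.stabilizer Q v1
    · by_cases hy0 : y ∈ MulAction.stabilizer Q v0
      · refine ⟨x * y, ?_, ?_⟩
        · intro h
          exact hx ((Subgroup.mul_mem_cancel_right _ hy0).1 h)
        · intro h
          exact hy ((Subgroup.mul_mem_cancel_left _ hx1).1 h)
      · exact ⟨y, hy0, hy⟩
    · exact ⟨x, hx, hx1⟩
  have hmove : ∀ (v w : V), w ∈ MulAction.orbit Q v → ∀ x : Q,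
      x • w = w ↔ x ∈ MulAction.stabilizer Q v := by
    rintro v w ⟨h, rfl⟩ x
    rw [MulAction.mem_stabilizer_iff]
    have h1 := hKn v
    constructor
    · intro h3
      have h4 : h⁻¹ * x * h ∈ MulAction.stabilizer Q v := by
        rw [MulAction.mem_stabilizer_iff, mul_smul, mul_smul]
        have h3' : x • h • v = h • v := h3
        rw [h3', inv_smul_smul]
      have h5 := h1.conj_mem _ h4 h
      have e : h * (h⁻¹ * x * h) * h⁻¹ = x := by group
      rw [e] at h5
      exact h5
    · intro h3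
      have h4 := h1.conj_mem x h3 h⁻¹
      rw [inv_inv, MulAction.mem_stabilizer_iff, mul_smul, mul_smul] at h4
      have h5 := congrArg (fun z : V => h • z) h4
      simp only [smul_inv_smul] at h5
      exact h5
  refine ⟨((g : A) : Equiv.Perm V), (g : A).2, ?_, ?_⟩
  · ext v
    have hp' : ∀ u : V, g ^ p ∈ MulAction.stabilizer Q u := by
      intro u
      have h1 := hKn u
      have h3 := Subgroup.pow_index_mem (MulAction.stabilizer Q u) g
      rwa [hKi] at h3
    have h1 : (g ^ p) • v = v := by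
      rcases hcover v with h | h
      · exact (hmove v0 v h _).2 (hp' v0)
      · exact (hmove v1 v h _).2 (hp' v1)
    exact h1
  · intro v hv
    have hv' : g • v = v := hv
    rcases hcover v with h | h
    · exact hg0 ((hmove v0 v h _).1 hv')
    · exact hg1 ((hmove v1 v h _).1 hv')

/-- Vertex-transitive graphs of order `2 p` and even degree. -/
theorem la_vt (h2 : p ≠ 2) {V : Type} [Finite V] (hV : Nat.card V = 2 * p)
    (G : SimpleGraph V) (hvt : ∀ u v : V, ∃ φ : G ≃g G, φ u = v) (r : ℕ) (hr : 0 < r)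
    (he : Even r) (hreg : ∀ v, (G.neighborSet v).ncard = r) : la G = (r + 2) / 2 := by
  let A : Subgroup (Equiv.Perm V) :=
    { carrier := {σ | ∀ u v, G.Adj (σ u) (σ v) ↔ G.Adj u v}
      mul_mem' := by
        intro a b ha hb u v
        rw [Equiv.Perm.mul_apply, Equiv.Perm.mul_apply, ha, hb]
      one_mem' := fun u v => Iff.rfl
      inv_mem' := by
        intro a ha u v
        have := ha (a⁻¹ u) (a⁻¹ v)
        simpa using this.symm }
  obtain ⟨σ, hσ, hσp, hfix⟩ := exists_semiregular h2 hV A (by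
    intro u v
    obtain ⟨φ, hφ⟩ := hvt u v
    exact ⟨φ.toEquiv, fun x y => φ.map_rel_iff, hφ⟩)
  exact la_even h2 hV G σ hσp hfix hσ r hr he hreg

end Pool.Agent.H29.Bi
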