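import Pool.Agent.H29.Bi.Even

set_option autoImplicit false

/-!
The merged pairs of 2-factors.
-/

namespace Pool.Agent.H29.Bi

open Finset SimpleGraph H931R3.LA

variable {p : ℕ} [hp : Fact p.Prime]

/-- The two layer cycles of radius `s` joined along the edges with midpoints `m`. -/
def FP (s : ZMod p) (m : Bool → ZMod p) : SimpleGraph (VV p) where
  Adj u v := (u ≠ v ∧ u.1 = v.1 ∧ (v.2 = u.2 + 2 * s ∨ u.2 = v.2 + 2 * s) ∧
      u.2 + v.2 ≠ 2 * m u.1) ∨
    (u.1 ≠ v.1 ∧ ((u.2 = m u.1 + s ∧ v.2 = m v.1 - s) ∨ (u.2 = m u.1 - s ∧ v.2 = m v.1 + s)))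
  symm := ⟨fun u v h => h.imp
    (fun h => ⟨h.1.symm, h.2.1.symm, h.2.2.1.symm, by rw [add_comm, ← h.2.1]; exact h.2.2.2⟩)
    (fun h => ⟨h.1.symm, h.2.symm.imp And.symm And.symm⟩)⟩
  loopless := ⟨fun u h => by
    rcases h with h | h
    · exact h.1 rfl
    · exact h.1 rfl⟩

theorem FP_deg (h2 : p ≠ 2) {s : ZMod p} (hs : s ≠ 0) (m : Bool → ZMod p) (v : VV p) :
    ((FP s m).neighborSet v).ncard ≤ 2 := by
  have hpm : m v.1 + s ≠ m v.1 - s := by
    intro h
    apply hs
    refine cancel2 h2 ?_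
    linear_combination h
  by_cases hx : v.2 = m v.1 + s
  · refine deg2 (v.1, v.2 + 2 * s) (!v.1, m (!v.1) - s) ?_
    rintro ⟨j, y⟩ (⟨_, h1, h3 | h3, h4⟩ | ⟨h1, h3 | h3⟩)
    · left; exact Prod.ext h1.symm h3
    · exfalso
      apply h4
      show v.2 + y = 2 * m v.1
      have h3' : v.2 = y + 2 * s := h3
      linear_combination 2 * hx - h3'
    · right
      have hj := not_eq h1
      refine Prod.ext hj ?_
      rw [h3.2]
      show m j - s = m (!v.1) - s
      rw [← hj]
    · exact absurd (hx.symm.trans h3.1) hpm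
  by_cases hx' : v.2 = m v.1 - s
  · refine deg2 (v.1, v.2 - 2 * s) (!v.1, m (!v.1) + s) ?_
    rintro ⟨j, y⟩ (⟨_, h1, h3 | h3, h4⟩ | ⟨h1, h3 | h3⟩)
    · exfalso
      apply h4
      show v.2 + y = 2 * m v.1
      have h3' : y = v.2 + 2 * s := h3
      linear_combination 2 * hx' + h3'
    · left; exact Prod.ext h1.symm (by show y = v.2 - _; rw [h3]; ring)
    · exact absurd h3.1 hx
    · right
      have hj := not_eq h1
      refine Prod.ext hj ?_
      rw [h3.2]
      show m j + s = m (!v.1) + s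
      rw [← hj]
  · refine deg2 (v.1, v.2 + 2 * s) (v.1, v.2 - 2 * s) ?_
    rintro ⟨j, y⟩ (⟨_, h1, h3 | h3, h4⟩ | ⟨h1, h3 | h3⟩)
    · left; exact Prod.ext h1.symm h3
    · right; exact Prod.ext h1.symm (by show y = v.2 - _; rw [h3]; ring)
    · exact absurd h3.1 hx
    · exact absurd h3.1 hx'

theorem ne_self_add (h2 : p ≠ 2) {s : ZMod p} (hs : s ≠ 0) (x : ZMod p) : x ≠ x + 2 * s := by
  intro h
  have h3 : 2 * s = 0 := by linear_combination -h
  rcases mul_eq_zero.1 h3 with h4 | h4
  · exact two_ne h2 h4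
  · exact hs h4

theorem FP_layer (h2 : p ≠ 2) {s : ZMod p} (hs : s ≠ 0) (m : Bool → ZMod p) (i : Bool)
    (x : ZMod p) : (FP s m).Reachable (i, m i + s) (i, x) := by
  obtain ⟨n, hn, hx⟩ := exists_mul (mul_ne_zero (two_ne h2) hs) (x - (m i + s))
  have key := reach_steps (G := FP s m) (fun n : ℕ => (i, m i + s + n * (2 * s))) (p - 1)
    (fun n hn h => h.trans (Adj.reachable (Or.inl ⟨?_, rfl, Or.inl ?_, ?_⟩))) n hn
  · have e0 : m i + s + ((0 : ℕ) : ZMod p) * (2 * s) = m i + s := by push_cast; ring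
    have e1 : m i + s + (n : ZMod p) * (2 * s) = x := by rw [← hx]; ring
    simp only [e1, e0] at key
    exact key
  · intro h
    have h1 : m i + s + (n : ZMod p) * (2 * s) = m i + s + ((n + 1 : ℕ) : ZMod p) * (2 * s) :=
      congrArg Prod.snd h
    refine ne_self_add h2 hs (m i + s + (n : ZMod p) * (2 * s)) ?_
    push_cast at h1
    linear_combination h1
  · show m i + s + ((n + 1 : ℕ) : ZMod p) * (2 * s) = m i + s + (n : ZMod p) * (2 * s) + 2 * s
    push_cast; ring
  · intro h
    have h1 : m i + s + (n : ZMod p) * (2 * s) + (m i + s + ((n + 1 : ℕ) : ZMod p) * (2 * s)) =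
      2 * m i := h
    have h3 : ((n + 1 : ℕ) : ZMod p) * s = 0 := by
      refine cancel2 h2 (cancel2 h2 ?_)
      push_cast at h1 ⊢
      linear_combination h1
    rcases mul_eq_zero.1 h3 with h4 | h4
    · exact nat_ne (Nat.succ_pos n) (by omega) h4
    · exact hs h4

theorem FP_conn (h2 : p ≠ 2) {s : ZMod p} (hs : s ≠ 0) (m : Bool → ZMod p) (u v : VV p) :
    (FP s m).Reachable u v := by
  have h1 : ∀ v : VV p, (FP s m).Reachable (v.1, m v.1 + s) v := by
    rintro ⟨i, x⟩
    exact FP_layer h2 hs m i x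
  have h3 : ∀ i, (FP s m).Reachable (i, m i + s) (!i, m (!i) + s) := by
    intro i
    refine Reachable.trans (v := (!i, m (!i) - s)) (Adj.reachable (Or.inr ⟨by simp, Or.inl
      ⟨rfl, rfl⟩⟩)) (FP_layer h2 hs m (!i) _).symm
  have h4 : ∀ v : VV p, (FP s m).Reachable (false, m false + s) v := by
    rintro ⟨i, x⟩
    cases i
    · exact h1 (false, x)
    · exact (h3 false).trans (h1 (true, x))
  exact (h4 u).symm.trans (h4 v)

/-- The same without the edge of the layer `false` with midpoint `c`. -/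
def FC (s : ZMod p) (m : Bool → ZMod p) (c : ZMod p) : SimpleGraph (VV p) where
  Adj u v := (FP s m).Adj u v ∧ ¬ (u.1 = false ∧ v.1 = false ∧ u.2 + v.2 = 2 * c)
  symm := ⟨fun u v h => ⟨h.1.symm, fun h' => h.2 ⟨h'.2.1, h'.1, by rw [add_comm]; exact h'.2.2⟩⟩⟩
  loopless := ⟨fun u h => (FP s m).loopless.irrefl u h.1⟩

theorem FC_lf (h2 : p ≠ 2) {s : ZMod p} (hs : s ≠ 0) {m : Bool → ZMod p} {c : ZMod p}
    (hc : c ≠ m false) : IsLF (FC s m c) := by
  refine isLF_of_cut (G := FP s m) (fun u v h => h.1) (FP_deg h2 hs m) ?_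
  intro v
  refine ⟨(false, c - s), (false, c + s), FP_conn h2 hs m _ _, Or.inl ⟨?_, rfl, Or.inl ?_, ?_⟩, ?_⟩
  · intro h
    have h1 : c - s = c + s := congrArg Prod.snd h
    refine ne_self_add h2 hs (c - s) ?_
    linear_combination h1
  · show c + s = c - s + 2 * s
    ring
  · intro h
    apply hc
    refine cancel2 h2 ?_
    have h' : c - s + (c + s) = 2 * m false := h
    rw [← h']; ring
  · intro h
    apply h.2
    refine ⟨rfl, rfl, ?_⟩
    show c - s + (c + s) = 2 * c
    ring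

/-- The cross cycle with midpoints `t` (`2 t` is the sum of the values of `m`), `t'` with two edges
of midpoint `t` replaced by layer edges of radius `s` with midpoints `m`. -/
def HP (s t' : ZMod p) (m : Bool → ZMod p) : SimpleGraph (VV p) where
  Adj u v := (u.1 ≠ v.1 ∧ ((u.2 + v.2 = m u.1 + m v.1 ∧ u.2 ≠ m u.1 + s ∧ u.2 ≠ m u.1 - s) ∨
      u.2 + v.2 = 2 * t')) ∨
    (u ≠ v ∧ u.1 = v.1 ∧ ((u.2 = m u.1 + s ∧ v.2 = m u.1 - s) ∨
      (u.2 = m u.1 - s ∧ v.2 = m u.1 + s)))
  symm := ⟨fun u v h => h.imp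
    (fun h => ⟨h.1.symm, h.2.imp (fun h' => ⟨by linear_combination h'.1, fun h3 => h'.2.2 (by
      linear_combination h'.1 - h3), fun h3 => h'.2.1 (by linear_combination h'.1 - h3)⟩)
      (fun h' => by rw [add_comm]; exact h')⟩)
    (fun h => ⟨h.1.symm, h.2.1.symm, by rw [← h.2.1]; exact h.2.2.symm.imp And.symm And.symm⟩)⟩
  loopless := ⟨fun u h => by
    rcases h with h | h
    · exact h.1 rfl
    · exact h.1 rfl⟩

theorem HP_deg (h2 : p ≠ 2) {s : ZMod p} (hs : s ≠ 0) (t' : ZMod p) (m : Bool → ZMod p)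
    (v : VV p) : ((HP s t' m).neighborSet v).ncard ≤ 2 := by
  have hpm : m v.1 + s ≠ m v.1 - s := by
    intro h
    apply hs
    refine cancel2 h2 ?_
    linear_combination h
  by_cases hx : v.2 = m v.1 + s
  · refine deg2 (!v.1, 2 * t' - v.2) (v.1, m v.1 - s) ?_
    rintro ⟨j, y⟩ (⟨h1, h3 | h3⟩ | ⟨_, h1, h3 | h3⟩)
    · exact absurd hx h3.2.1
    · left; exact Prod.ext (not_eq h1) (by show y = 2 * t' - v.2; rw [← h3]; ring)
    · right; exact Prod.ext h1.symm h3.2
    · exact absurd (hx.symm.trans h3.1) hpm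
  by_cases hx' : v.2 = m v.1 - s
  · refine deg2 (!v.1, 2 * t' - v.2) (v.1, m v.1 + s) ?_
    rintro ⟨j, y⟩ (⟨h1, h3 | h3⟩ | ⟨_, h1, h3 | h3⟩)
    · exact absurd hx' h3.2.2
    · left; exact Prod.ext (not_eq h1) (by show y = 2 * t' - v.2; rw [← h3]; ring)
    · exact absurd h3.1 hx
    · right; exact Prod.ext h1.symm h3.2
  · refine deg2 (!v.1, 2 * t' - v.2) (!v.1, m v.1 + m (!v.1) - v.2) ?_
    rintro ⟨j, y⟩ (⟨h1, h3 | h3⟩ | ⟨_, h1, h3 | h3⟩)
    · right
      have hj := not_eq h1
      refine Prod.ext hj ?_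
      show y = _
      have h4 : v.2 + y = m v.1 + m j := h3.1
      have h5 : m j = m (!v.1) := by rw [show j = !v.1 from hj]
      rw [← h5]
      linear_combination h4
    · left; exact Prod.ext (not_eq h1) (by show y = 2 * t' - v.2; rw [← h3]; ring)
    · exact absurd h3.1 hx
    · exact absurd h3.1 hx'

theorem HP_true (h2 : p ≠ 2) {s : ZMod p} (hs : s ≠ 0) {t' : ZMod p} {m : Bool → ZMod p}
    (ht : 2 * t' ≠ m false + m true) (x : ZMod p) :
    (HP s t' m).Reachable (true, m true + s) (true, x) := by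
  have hd : m false + m true - 2 * t' ≠ 0 := fun h => ht (sub_eq_zero.1 h).symm
  have hE : (HP s t' m).Adj (true, m true + s) (true, m true - s) := by
    refine Or.inr ⟨fun h => ?_, rfl, Or.inl ⟨rfl, rfl⟩⟩
    have h1 : m true + s = m true - s := congrArg Prod.snd h
    apply hs
    refine cancel2 h2 ?_
    linear_combination h1
  obtain ⟨n, hn, hx⟩ := exists_mul hd (x - (m true + s))
  have key := reach_steps (G := HP s t' m)
    (fun n : ℕ => (true, m true + s + n * (m false + m true - 2 * t'))) (p - 1) ?_ n hn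
  · have e0 : m true + s + ((0 : ℕ) : ZMod p) * (m false + m true - 2 * t') = m true + s := by
      push_cast; ring
    have e1 : m true + s + (n : ZMod p) * (m false + m true - 2 * t') = x := by rw [← hx]; ring
    simp only [e1, e0] at key
    exact key
  · intro n hn h
    have e0 : m true + s + ((0 : ℕ) : ZMod p) * (m false + m true - 2 * t') = m true + s := by
      push_cast; ring
    simp only [e0] at h ⊢
    have hne : m true + s + ((n + 1 : ℕ) : ZMod p) * (m false + m true - 2 * t') ≠ m true + s := by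
      intro h'
      have h3 : ((n + 1 : ℕ) : ZMod p) * (m false + m true - 2 * t') = 0 := by
        linear_combination h'
      rcases mul_eq_zero.1 h3 with h4 | h4
      · exact nat_ne (Nat.succ_pos n) (by omega) h4
      · exact hd h4
    by_cases hm : m true + s + ((n + 1 : ℕ) : ZMod p) * (m false + m true - 2 * t') = m true - s
    · rw [hm]
      exact hE.reachable
    · refine h.trans ?_
      have h1 : (HP s t' m).Adj (true, m true + s + (n : ZMod p) * (m false + m true - 2 * t'))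
          (false, 2 * t' - (m true + s + (n : ZMod p) * (m false + m true - 2 * t'))) :=
        Or.inl ⟨by simp, Or.inr (by ring)⟩
      have h3 : (HP s t' m).Adj
          (true, m true + s + ((n + 1 : ℕ) : ZMod p) * (m false + m true - 2 * t'))
          (false, 2 * t' - (m true + s + (n : ZMod p) * (m false + m true - 2 * t'))) := by
        refine Or.inl ⟨by simp, Or.inl ⟨?_, hne, hm⟩⟩
        show m true + s + ((n + 1 : ℕ) : ZMod p) * (m false + m true - 2 * t') +
          (2 * t' - (m true + s + (n : ZMod p) * (m false + m true - 2 * t'))) = m true + m false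
        push_cast
        ring
      exact h1.reachable.trans h3.symm.reachable

theorem HP_conn (h2 : p ≠ 2) {s : ZMod p} (hs : s ≠ 0) {t' : ZMod p} {m : Bool → ZMod p}
    (ht : 2 * t' ≠ m false + m true) (u v : VV p) : (HP s t' m).Reachable u v := by
  have h4 : ∀ v : VV p, (HP s t' m).Reachable (true, m true + s) v := by
    rintro ⟨i, x⟩
    cases i
    · refine (HP_true h2 hs ht (2 * t' - x)).trans (Adj.reachable (Or.inl ⟨by simp, Or.inr ?_⟩))
      show 2 * t' - x + x = 2 * t'
      ring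
    · exact HP_true h2 hs ht x
  exact (h4 u).symm.trans (h4 v)

/-- The same without the layer edge of the layer `true`. -/
def HC (s t' : ZMod p) (m : Bool → ZMod p) : SimpleGraph (VV p) where
  Adj u v := (HP s t' m).Adj u v ∧ ¬ (u.1 = true ∧ v.1 = true)
  symm := ⟨fun _ _ h => ⟨h.1.symm, fun h' => h.2 ⟨h'.2, h'.1⟩⟩⟩
  loopless := ⟨fun u h => (HP s t' m).loopless.irrefl u h.1⟩

theorem HC_lf (h2 : p ≠ 2) {s : ZMod p} (hs : s ≠ 0) {t' : ZMod p} {m : Bool → ZMod p}
    (ht : 2 * t' ≠ m false + m true) : IsLF (HC s t' m) := by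
  refine isLF_of_cut (G := HP s t' m) (fun u v h => h.1) (HP_deg h2 hs t' m) ?_
  intro v
  refine ⟨(true, m true + s), (true, m true - s), HP_conn h2 hs ht _ _, ?_, fun h => h.2 ⟨rfl, rfl⟩⟩
  refine Or.inr ⟨fun h => ?_, rfl, Or.inl ⟨rfl, rfl⟩⟩
  have h1 : m true + s = m true - s := congrArg Prod.snd h
  apply hs
  refine cancel2 h2 ?_
  linear_combination h1

end Pool.Agent.H29.Bi
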