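import Pool.Agent.H29.Bi.Spine

set_option autoImplicit false

/-!
Dihedral bicirculant graphs over `ℤ/p` of odd degree.
-/

namespace Pool.Agent.H29.Bi

open Finset SimpleGraph H931R3.LA

variable {p : ℕ} [hp : Fact p.Prime]

/-- The midpoints of the replaced layer edges. -/
def mm (t : ZMod p) : Bool → ZMod p := fun i => if i then 1 else 2 * t - 1

theorem mm_sum (t : ZMod p) {i j : Bool} (h : i ≠ j) : mm t i + mm t j = 2 * t := by
  revert h
  cases i <;> cases j <;> simp [mm]

/-- The cover. -/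
theorem cov_odd (h2 : p ≠ 2) (k m : ℕ) (s f g : ℕ → ZMod p) (hs : ∀ j < k, s j ≠ 0)
    (hfg : ∀ i < m, f i ≠ g i) (hf1 : ∀ i < m, i < k → f i ≠ 1)
    (hQ : IsLF (QB {x | ∃ j < k, x = s j ∨ x = - s j} {x | ∃ i < m, k ≤ i ∧ x = f i}))
    (G : SimpleGraph (VV p))
    (hG : ∀ u v, G.Adj u v ↔ (∃ j < k, (LG (fun _ => s j)).Adj u v) ∨
      (∃ i < m, (CG (f i) (g i)).Adj u v) ∨ (u.1 ≠ v.1 ∧ u.2 + v.2 = 0)) :
    Cov G (k + m + 1) := by
  classical
  have hGL : ∀ j < k, ∀ u v, (LG (fun _ => s j)).Adj u v → G.Adj u v := fun j hj u v h =>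
    (hG u v).2 (Or.inl ⟨j, hj, h⟩)
  have hGC : ∀ i < m, ∀ u v, (CG (f i) (g i)).Adj u v → G.Adj u v := fun i hi u v h =>
    (hG u v).2 (Or.inr (Or.inl ⟨i, hi, h⟩))
  -- membership of the pair edges
  have hpair : ∀ j < k, ∀ u v : VV p, ∀ c : ZMod p, u ≠ v → u.1 = v.1 →
      ((u.2 = c + s j ∧ v.2 = c - s j) ∨ (u.2 = c - s j ∧ v.2 = c + s j)) → G.Adj u v := by
    intro j hj u v c huv h1 h3
    refine hGL j hj u v ⟨huv, h1, ?_⟩
    rcases h3 with h3 | h3
    · right
      show u.2 = v.2 + 2 * s j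
      rw [h3.1, h3.2]; ring
    · left
      show v.2 = u.2 + 2 * s j
      rw [h3.1, h3.2]; ring
  rw [← card_idx]
  refine cov_of_type (fun o => match o with
    | none => QB {x | ∃ j < k, x = s j ∨ x = - s j} {x | ∃ i < m, k ≤ i ∧ x = f i}
    | some (Sum.inl j) => if (j : ℕ) < m then FC (s j) (mm (f j)) 1
        else LGc (fun _ => s j) (fun _ => 1)
    | some (Sum.inr i) => if (i : ℕ) < k then HC (s i) (g i) (mm (f i))
        else CGc (f i) (g i)) ?_ ?_
  · rintro (_ | ⟨j, hj⟩ | ⟨i, hi⟩)
    · exact hQ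
    · dsimp only
      split_ifs with h
      · refine FC_lf h2 (hs j hj) ?_
        intro h3
        apply hf1 j h hj
        refine cancel2 h2 ?_
        have h4 : (1 : ZMod p) = 2 * f j - 1 := h3
        linear_combination -h4
      · exact LGc_lf h2 (fun _ => hs j hj)
    · dsimp only
      split_ifs with h
      · refine HC_lf h2 (hs i h) ?_
        rw [mm_sum (f i) (by simp)]
        intro h3
        exact hfg i hi (cancel2 h2 h3).symm
      · exact CGc_lf h2 (hfg i hi)
  · ext u v
    rw [iSup_adj]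
    constructor
    · rintro ⟨_ | ⟨j, hj⟩ | ⟨i, hi⟩, h⟩
      · rcases h with h | ⟨huv, h1, h3, ⟨j, hj, h4⟩, _⟩ | ⟨h1, h3, i, hi, _, h4⟩
        · exact (hG u v).2 (Or.inr (Or.inr h))
        · refine hpair j hj u v 1 huv h1 ?_
          rcases h4 with h4 | h4
          · left
            exact ⟨by linear_combination h4, by linear_combination h3 - h4⟩
          · right
            exact ⟨by linear_combination h4, by linear_combination h3 - h4⟩
        · exact hGC i hi u v ⟨h1, Or.inl (by rw [← h3, h4]; ring)⟩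
      · dsimp only at h
        split_ifs at h with hjm
        · rcases h.1 with ⟨h1, h3, h4, _⟩ | ⟨h1, h3⟩
          · exact hGL j hj u v ⟨h1, h3, h4⟩
          · refine hGC j hjm u v ⟨h1, Or.inl ?_⟩
            rw [← mm_sum (f j) h1]
            rcases h3 with ⟨h3, h4⟩ | ⟨h3, h4⟩
            · rw [h3, h4]; ring
            · rw [h3, h4]; ring
        · exact hGL j hj u v h.1
      · dsimp only at h
        split_ifs at h with hik
        · rcases h.1 with ⟨h1, ⟨h3, _⟩ | h3⟩ | ⟨huv, h1, h3⟩
          · exact hGC i hi u v ⟨h1, Or.inl (by rw [h3, mm_sum _ h1])⟩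
          · exact hGC i hi u v ⟨h1, Or.inr h3⟩
          · exact hpair i hik u v _ huv h1 h3
        · exact hGC i hi u v ⟨h.1, h.2.imp (fun h => h.1) id⟩
    · intro h
      rcases (hG u v).1 h with ⟨j, hj, h'⟩ | ⟨i, hi, h'⟩ | h'
      · -- a layer edge
        have hzig : u.2 + v.2 = 2 * 1 → ∃ o : Option (Fin k ⊕ Fin m), (match o with
            | none => QB {x | ∃ j < k, x = s j ∨ x = - s j} {x | ∃ i < m, k ≤ i ∧ x = f i}
            | some (Sum.inl j) => if (j : ℕ) < m then FC (s j) (mm (f j)) 1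
              else LGc (fun _ => s j) (fun _ => 1)
            | some (Sum.inr i) => if (i : ℕ) < k then HC (s i) (g i) (mm (f i))
              else CGc (f i) (g i)).Adj u v := by
          intro h3
          refine ⟨none, Or.inr (Or.inl ⟨h'.1, h'.2.1, by rw [h3]; ring, ?_⟩)⟩
          have h4 : v.2 = u.2 + 2 * s j ∨ u.2 = v.2 + 2 * s j := h'.2.2
          rcases h4 with h4 | h4
          · have h5 : u.2 - 1 = - s j := cancel2 h2 (by linear_combination h3 - h4)
            have h6 : v.2 - 1 = s j := by linear_combination h4 + h5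
            exact ⟨⟨j, hj, Or.inr h5⟩, ⟨j, hj, Or.inl h6⟩⟩
          · have h5 : v.2 - 1 = - s j := cancel2 h2 (by linear_combination h3 - h4)
            have h6 : u.2 - 1 = s j := by linear_combination h4 + h5
            exact ⟨⟨j, hj, Or.inl h6⟩, ⟨j, hj, Or.inr h5⟩⟩
        by_cases h1 : u.2 + v.2 = 2 * 1
        · exact hzig h1
        · by_cases hjm : j < m
          · by_cases h3 : u.2 + v.2 = 2 * mm (f j) u.1
            · -- in `HC`
              have hu : u.1 = false := by
                by_contra hc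
                apply h1
                rw [h3, eq_true_of_ne_false hc]
                rfl
              refine ⟨some (Sum.inr ⟨j, hjm⟩), ?_⟩
              dsimp only
              rw [if_pos hj]
              refine ⟨Or.inr ⟨h'.1, h'.2.1, ?_⟩, fun h4 => by rw [hu] at h4; simp at h4⟩
              have h4 : v.2 = u.2 + 2 * s j ∨ u.2 = v.2 + 2 * s j := h'.2.2
              rcases h4 with h4 | h4
              · right
                have h5 : u.2 = mm (f j) u.1 - s j := cancel2 h2 (by linear_combination h3 - h4)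
                exact ⟨h5, by linear_combination h4 + h5⟩
              · left
                have h5 : v.2 = mm (f j) u.1 - s j := cancel2 h2 (by linear_combination h3 - h4)
                exact ⟨by linear_combination h4 + h5, h5⟩
            · refine ⟨some (Sum.inl ⟨j, hj⟩), ?_⟩
              dsimp only
              rw [if_pos hjm]
              exact ⟨Or.inl ⟨h'.1, h'.2.1, h'.2.2, h3⟩, fun h4 => h1 h4.2.2⟩
          · refine ⟨some (Sum.inl ⟨j, hj⟩), ?_⟩
            dsimp only
            rw [if_neg hjm]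
            exact ⟨h', h1⟩
      · by_cases hik : i < k
        · by_cases h3 : u.2 + v.2 = 2 * f i
          · by_cases h4 : u.2 = mm (f i) u.1 + s i ∨ u.2 = mm (f i) u.1 - s i
            · -- in `FC`
              refine ⟨some (Sum.inl ⟨i, hik⟩), ?_⟩
              dsimp only
              rw [if_pos hi]
              have hsum := mm_sum (f i) h'.1
              refine ⟨Or.inr ⟨h'.1, h4.imp (fun h4 => ⟨h4, ?_⟩) (fun h4 => ⟨h4, ?_⟩)⟩,
                fun h5 => h'.1 (h5.1.trans h5.2.1.symm)⟩
              · linear_combination h3 - hsum - h4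
              · linear_combination h3 - hsum - h4
            · push Not at h4
              refine ⟨some (Sum.inr ⟨i, hi⟩), ?_⟩
              dsimp only
              rw [if_pos hik]
              exact ⟨Or.inl ⟨h'.1, Or.inl ⟨by rw [h3, mm_sum _ h'.1], h4⟩⟩,
                fun h5 => h'.1 (h5.1.trans h5.2.symm)⟩
          · refine ⟨some (Sum.inr ⟨i, hi⟩), ?_⟩
            dsimp only
            rw [if_pos hik]
            exact ⟨Or.inl ⟨h'.1, Or.inr (h'.2.resolve_left h3)⟩,
              fun h5 => h'.1 (h5.1.trans h5.2.symm)⟩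
        · by_cases h1 : u.2 + v.2 = 2 * f i ∧ u.2 = v.2
          · refine ⟨none, Or.inr (Or.inr ⟨h'.1, h1.2, i, hi, by omega, ?_⟩)⟩
            refine cancel2 h2 ?_
            have h4 := h1.1
            rw [← h1.2] at h4
            linear_combination h4
          · refine ⟨some (Sum.inr ⟨i, hi⟩), ?_⟩
            dsimp only
            rw [if_neg hik]
            refine ⟨h'.1, ?_⟩
            rcases h'.2 with h3 | h3
            · exact Or.inl ⟨h3, fun h4 => h1 ⟨h3, h4⟩⟩
            · exact Or.inr h3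
      · exact ⟨none, Or.inl h'⟩

/-- Enumeration of a finite set. -/
theorem enum {α : Type} [Inhabited α] (A : Finset α) (n : ℕ) (h : A.card = n) :
    ∃ e : ℕ → α, (∀ i < n, e i ∈ A) ∧ ∀ x ∈ A, ∃ i < n, e i = x := by
  classical
  let φ := A.equivFinOfCardEq h
  refine ⟨fun i => if hi : i < n then (φ.symm ⟨i, hi⟩ : α) else default, ?_, ?_⟩
  · intro i hi
    dsimp only
    rw [dif_pos hi]
    exact (φ.symm ⟨i, hi⟩).2
  · intro x hx
    refine ⟨φ ⟨x, hx⟩, (φ ⟨x, hx⟩).2, ?_⟩
    dsimp only
    rw [dif_pos (φ ⟨x, hx⟩).2]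
    simp

/-- Half of a symmetric set. -/
theorem half (h2 : p ≠ 2) (S : Finset (ZMod p)) (h0 : (0 : ZMod p) ∉ S) (hS : ∀ x ∈ S, -x ∈ S) :
    ∃ (k : ℕ) (s : ℕ → ZMod p), S.card = 2 * k ∧ (∀ j < k, s j ≠ 0) ∧
      ∀ x, x ∈ S ↔ ∃ j < k, x = s j ∨ x = - s j := by
  classical
  have hpo : ¬ Even p := by
    intro h
    exact h2 ((Nat.Prime.even_iff hp.out).1 h)
  have hval : ∀ x ∈ S, (-x).val = p - x.val := by
    intro x hx
    have : NeZero x := ⟨fun h => h0 (h ▸ hx)⟩
    exact ZMod.val_neg_of_ne_zero x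
  set A := S.filter (fun x => Even x.val) with hA
  set B := S.filter (fun x => ¬ Even x.val) with hB
  have hAB : A.card = B.card := by
    refine Finset.card_bij (fun x _ => -x) ?_ ?_ ?_
    · intro x hx
      rw [hA, Finset.mem_filter] at hx
      rw [hB, Finset.mem_filter, hval x hx.1, Nat.even_sub (ZMod.val_lt x).le]
      exact ⟨hS x hx.1, by simp [hpo, hx.2]⟩
    · intro x _ y _ h
      exact neg_injective h
    · intro x hx
      rw [hB, Finset.mem_filter] at hx
      refine ⟨-x, ?_, neg_neg x⟩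
      rw [hA, Finset.mem_filter, hval x hx.1, Nat.even_sub (ZMod.val_lt x).le]
      exact ⟨hS x hx.1, by simp [hpo, hx.2]⟩
  obtain ⟨s, hs1, hs2⟩ := enum A A.card rfl
  have hsS : ∀ j < A.card, s j ∈ S := fun j hj => (Finset.mem_filter.1 (hs1 j hj)).1
  refine ⟨A.card, s, ?_, fun j hj h => h0 (h ▸ hsS j hj), fun x => ⟨fun hx => ?_, ?_⟩⟩
  · have h3 : A.card + B.card = S.card :=
      Finset.card_filter_add_card_filter_not (s := S) (fun x : ZMod p => Even x.val)
    omega
  · by_cases he : Even x.val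
    · obtain ⟨i, hi, hx'⟩ := hs2 x (Finset.mem_filter.2 ⟨hx, he⟩)
      exact ⟨i, hi, Or.inl hx'.symm⟩
    · have hx' : -x ∈ A := by
        rw [hA, Finset.mem_filter, hval x hx, Nat.even_sub (ZMod.val_lt x).le]
        exact ⟨hS x hx, by simp [hpo, he]⟩
      obtain ⟨i, hi, h3⟩ := hs2 _ hx'
      exact ⟨i, hi, Or.inr (by rw [h3, neg_neg])⟩
  · rintro ⟨j, hj, rfl | rfl⟩
    · exact hsS j hj
    · exact hS _ (hsS j hj)

/-- The choice of the chords. -/
theorem exists_Q (h2 : p ≠ 2) (S T : Finset (ZMod p)) (h0 : (0 : ZMod p) ∉ S)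
    (hS : ∀ x ∈ S, -x ∈ S) (hT0 : (0 : ZMod p) ∉ T) (k m : ℕ) (hk : S.card = 2 * k)
    (hm : T.card = 2 * m) :
    ∃ Q ⊆ T, Q.card = m - k ∧ IsLF (QB (S : Set (ZMod p)) (Q : Set (ZMod p))) := by
  classical
  have hS' : ∀ x ∈ (S : Set (ZMod p)), -x ∈ (S : Set (ZMod p)) := by
    intro x hx
    exact_mod_cast hS x (by exact_mod_cast hx)
  have h0' : (0 : ZMod p) ∉ (S : Set (ZMod p)) := by exact_mod_cast h0
  have hpo : ¬ Even p := by
    intro h
    exact h2 ((Nat.Prime.even_iff hp.out).1 h)
  have hval1 : ∀ n : ℕ, n + 1 < p → ((n : ZMod p) + 1).val = n + 1 := by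
    intro n h5
    have : ((n + 1 : ℕ) : ZMod p).val = n + 1 := ZMod.val_cast_of_lt h5
    push_cast at this
    exact this
  set T' := T.filter (fun x => x - 1 ∉ S) with hT'
  have hT'c : 2 * m - 2 * k ≤ T'.card := by
    have h1 : T'.card + (T.filter (fun x => ¬ (x - 1 ∉ S))).card = T.card :=
      Finset.card_filter_add_card_filter_not (s := T) (fun x => x - 1 ∉ S)
    have h3 : (T.filter (fun x => ¬ (x - 1 ∉ S))).card ≤ S.card := by
      refine Finset.card_le_card_of_injOn (fun x => x - 1) ?_ ?_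
      · intro x hx
        have := (Finset.mem_filter.1 (Finset.mem_coe.1 hx)).2
        push Not at this
        exact Finset.mem_coe.2 this
      · intro x _ y _ h
        have h' : x - 1 = y - 1 := h
        linear_combination h'
    omega
  set R := T'.filter (fun x => Even x.val) with hR
  set L := T'.filter (fun x => ¬ Even x.val) with hL
  have hRL : R.card + L.card = T'.card := Finset.card_filter_add_card_filter_not _
  by_cases hc : m - k ≤ R.card
  · obtain ⟨Q, hQR, hQc⟩ := Finset.exists_subset_card_eq hc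
    refine ⟨Q, fun x hx => (Finset.mem_filter.1 (Finset.mem_filter.1 (hQR hx)).1).1, hQc,
      QB_lf_right h2 hS' h0' ?_ ?_⟩
    · intro x hx
      have h1 := (Finset.mem_filter.1 (Finset.mem_filter.1 (hQR (by exact_mod_cast hx))).1).2
      exact_mod_cast h1
    · intro n hn he hmem
      have h1 := Finset.mem_filter.1 (hQR (Finset.mem_coe.1 hmem))
      have h3 := (Finset.mem_filter.1 h1.1).1
      by_cases h5 : n + 1 < p
      · have h4 := h1.2
        rw [hval1 n h5] at h4
        exact (Nat.even_add_one.1 h4) he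
      · have h6 : n + 1 = p := by omega
        have e : (n : ZMod p) + 1 = 0 := by
          have : ((n + 1 : ℕ) : ZMod p) = 0 := by rw [h6]; exact ZMod.natCast_self p
          push_cast at this
          exact this
        rw [e] at h3
        exact hT0 h3
  · have hLc : m - k + 1 ≤ L.card := by omega
    have hLne : L.Nonempty := Finset.card_pos.1 (by omega)
    obtain ⟨a, haL, hmax⟩ := Finset.exists_max_image L (fun x => x.val) hLne
    have ha := Finset.mem_filter.1 haL
    have ha1 := (Finset.mem_filter.1 ha.1).2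
    have hapos : 1 ≤ a.val := by
      rcases Nat.eq_zero_or_pos a.val with h | h
      · exfalso
        apply ha.2
        rw [h]
        exact Even.zero
      · exact h
    have hlt := ZMod.val_lt a
    obtain ⟨Q, hQL, hQc⟩ := Finset.exists_subset_card_eq (s := L.erase a) (n := m - k) (by
      rw [Finset.card_erase_of_mem haL]; omega)
    have hQL' : ∀ x ∈ Q, x ≠ a ∧ x ∈ L := fun x hx => Finset.mem_erase.1 (hQL hx)
    refine ⟨Q, fun x hx => (Finset.mem_filter.1 (Finset.mem_filter.1 (hQL' x hx).2).1).1, hQc,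
      QB_lf_left h2 hS' ?_ (a.val - 1) (by omega) ?_ ?_ ?_⟩
    · intro x hx
      have h1 := (Finset.mem_filter.1 (Finset.mem_filter.1 (hQL' x (by exact_mod_cast hx)).2).1).2
      exact_mod_cast h1
    · rw [Nat.even_sub hapos]
      simp [ha.2]
    · rw [Nat.cast_sub hapos, ZMod.natCast_zmod_val, Nat.cast_one]
      exact_mod_cast ha1
    · intro x hx
      obtain ⟨h3, h4⟩ := hQL' x (by exact_mod_cast hx)
      have h5 := hmax x h4
      have h6 : x.val ≠ a.val := fun h => h3 (ZMod.val_injective p h)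
      have h7 := (Finset.mem_filter.1 h4).2
      refine ⟨h7, ?_⟩
      have h8 := ha.2
      rw [Nat.not_even_iff_odd] at h7 h8
      obtain ⟨b, hb⟩ := h7
      obtain ⟨c, hc⟩ := h8
      omega

/-- The pairing of the cross classes. -/
theorem exists_enum (T Q : Finset (ZMod p)) (hQT : Q ⊆ T) (k m : ℕ) (hm : T.card = 2 * m)
    (hQ : Q.card = m - k) : ∃ f g : ℕ → ZMod p, (∀ i < m, f i ≠ g i) ∧
      (∀ i < m, i < k → f i ≠ 1) ∧ (∀ x, x ∈ Q ↔ ∃ i < m, k ≤ i ∧ x = f i) ∧
      ∀ x, x ∈ T ↔ ∃ i < m, x = f i ∨ x = g i := by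
  classical
  set n0 := m - (m - k) with hn0
  have h1 : (T \ Q).card = 2 * m - (m - k) := by
    rw [Finset.card_sdiff_of_subset hQT, hm, hQ]
  have h3 : n0 ≤ ((T \ Q).erase 1).card := by
    have h4 := Finset.pred_card_le_card_erase (s := T \ Q) (a := 1)
    omega
  obtain ⟨R, hR, hRc⟩ := Finset.exists_subset_card_eq h3
  have hR1 : ∀ x ∈ R, x ≠ 1 ∧ x ∈ T ∧ x ∉ Q := by
    intro x hx
    have h4 := Finset.mem_erase.1 (hR hx)
    have h5 := Finset.mem_sdiff.1 h4.2
    exact ⟨h4.1, h5.1, h5.2⟩
  have hdisj : Disjoint R Q := by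
    rw [Finset.disjoint_left]
    intro x hx
    exact (hR1 x hx).2.2
  have hRQT : R ∪ Q ⊆ T := by
    intro x hx
    rcases Finset.mem_union.1 hx with h | h
    · exact (hR1 x h).2.1
    · exact hQT h
  have h4 : (T \ (R ∪ Q)).card = m := by
    rw [Finset.card_sdiff_of_subset hRQT, hm, Finset.card_union_of_disjoint hdisj, hRc, hQ]
    omega
  obtain ⟨e1, he1, he1'⟩ := enum R n0 hRc
  obtain ⟨e2, he2, he2'⟩ := enum Q (m - k) hQ
  obtain ⟨g, hg, hg'⟩ := enum (T \ (R ∪ Q)) m h4
  have hfR : ∀ i < m, i < k → (if i < k then e1 i else e2 (i - k)) ∈ R := by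
    intro i hi hik
    rw [if_pos hik]
    exact he1 i (by omega)
  have hfQ : ∀ i < m, k ≤ i → (if i < k then e1 i else e2 (i - k)) ∈ Q := by
    intro i hi hik
    rw [if_neg (by omega)]
    exact he2 _ (by omega)
  have hfRQ : ∀ i < m, (if i < k then e1 i else e2 (i - k)) ∈ R ∪ Q := by
    intro i hi
    rcases Nat.lt_or_ge i k with h | h
    · exact Finset.mem_union_left _ (hfR i hi h)
    · exact Finset.mem_union_right _ (hfQ i hi h)
  have hQmem : ∀ x, x ∈ Q ↔ ∃ i < m, k ≤ i ∧ x = if i < k then e1 i else e2 (i - k) := by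
    intro x
    constructor
    · intro hx
      obtain ⟨i, hi, h5⟩ := he2' x hx
      refine ⟨i + k, by omega, by omega, ?_⟩
      rw [if_neg (by omega), Nat.add_sub_cancel, h5]
    · rintro ⟨i, hi, hik, rfl⟩
      exact hfQ i hi hik
  refine ⟨fun i => if i < k then e1 i else e2 (i - k), g, ?_, ?_, hQmem, ?_⟩
  · intro i hi h
    have h5 := (Finset.mem_sdiff.1 (hg i hi)).2
    exact h5 (h ▸ hfRQ i hi)
  · intro i hi hik
    exact (hR1 _ (hfR i hi hik)).1
  · intro x
    constructor
    · intro hx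
      by_cases h5 : x ∈ R
      · obtain ⟨i, hi, h6⟩ := he1' x h5
        refine ⟨i, by omega, Or.inl ?_⟩
        dsimp only
        rw [if_pos (by omega), h6]
      · by_cases h6 : x ∈ Q
        · obtain ⟨i, hi, _, h7⟩ := (hQmem x).1 h6
          exact ⟨i, hi, Or.inl h7⟩
        · obtain ⟨i, hi, h7⟩ := hg' x (Finset.mem_sdiff.2 ⟨hx, fun h => by
            rcases Finset.mem_union.1 h with h | h
            · exact h5 h
            · exact h6 h⟩)
          exact ⟨i, hi, Or.inr h7.symm⟩
    · rintro ⟨i, hi, rfl | rfl⟩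
      · exact hRQT (hfRQ i hi)
      · exact (Finset.mem_sdiff.1 (hg i hi)).1

/-- Dihedral bicirculants: the set `S` of radii is the same in both layers, `0` is a cross class. -/
theorem cov_dihedral (h2 : p ≠ 2) (S T : Finset (ZMod p)) (h0 : (0 : ZMod p) ∉ S)
    (hS : ∀ x ∈ S, -x ∈ S) (hT0 : (0 : ZMod p) ∈ T) (hodd : Odd T.card)
    (G : SimpleGraph (VV p))
    (hG1 : ∀ i x y, G.Adj (i, x) (i, x + 2 * y) ↔ y ∈ S)
    (hG2 : ∀ i x y, G.Adj (i, x) (!i, 2 * y - x) ↔ y ∈ T) :
    Cov G ((S.card + T.card + 1) / 2) := by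
  classical
  obtain ⟨k, s, hk, hs0, hs⟩ := half h2 S h0 hS
  obtain ⟨m, hm⟩ := hodd
  have hTc : (T.erase 0).card = 2 * m := by
    rw [Finset.card_erase_of_mem hT0, hm]; omega
  obtain ⟨Q, hQT, hQc, hQlf⟩ := exists_Q h2 S (T.erase 0) h0 hS (by simp) k m hk hTc
  obtain ⟨f, g, hfg, hf1, hfQ, hfT⟩ := exists_enum (T.erase 0) Q hQT k m hTc hQc
  have e : (S.card + T.card + 1) / 2 = k + m + 1 := by omega
  rw [e]
  refine cov_odd h2 k m s f g hs0 hfg hf1 ?_ G ?_
  · have e1 : {x | ∃ j < k, x = s j ∨ x = - s j} = (S : Set (ZMod p)) := by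
      ext x
      rw [Finset.mem_coe, hs x]
      exact Iff.rfl
    have e2 : {x | ∃ i < m, k ≤ i ∧ x = f i} = (Q : Set (ZMod p)) := by
      ext x
      rw [Finset.mem_coe, hfQ x]
      exact Iff.rfl
    rw [e1, e2]
    exact hQlf
  · rintro ⟨i, x⟩ ⟨j, y⟩
    have h2' := two_ne h2
    by_cases hij : i = j
    · subst hij
      have hz : y = x + 2 * ((y - x) / 2) := by field_simp; ring
      have h3 := hG1 i x ((y - x) / 2)
      rw [← hz] at h3
      rw [h3, hs]
      constructor
      · rintro ⟨l, hl, h4⟩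
        left
        have hne : x ≠ y := by
          intro h
          rw [h, sub_self, zero_div] at h4
          rcases h4 with h4 | h4
          · exact hs0 l hl h4.symm
          · exact hs0 l hl (neg_eq_zero.1 h4.symm)
        refine ⟨l, hl, fun h => hne (congrArg Prod.snd h), rfl, ?_⟩
        show y = x + 2 * s l ∨ x = y + 2 * s l
        rcases h4 with h4 | h4
        · left; rw [← h4]; exact hz
        · right
          have h5 : s l = -((y - x) / 2) := by rw [h4, neg_neg]
          rw [h5]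
          field_simp
          ring
      · rintro (⟨l, hl, _, _, h4⟩ | ⟨_, _, h4, _⟩ | ⟨h4, _⟩)
        · refine ⟨l, hl, ?_⟩
          have h4' : y = x + 2 * s l ∨ x = y + 2 * s l := h4
          rcases h4' with h4 | h4
          · left; rw [h4]; field_simp; ring
          · right; rw [h4]; field_simp; ring
        · exact absurd rfl h4
        · exact absurd rfl h4
    · have hj : j = !i := not_eq hij
      subst hj
      have hz : y = 2 * ((x + y) / 2) - x := by field_simp; ring
      have h3 := hG2 i x ((x + y) / 2)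
      rw [← hz] at h3
      rw [h3]
      have h4 : (x + y) / 2 ∈ T ↔ (x + y) / 2 = 0 ∨ (x + y) / 2 ∈ T.erase 0 := by
        rw [Finset.mem_erase]
        by_cases h5 : (x + y) / 2 = 0
        · rw [h5]; simp [hT0]
        · simp [h5]
      rw [h4, hfT]
      have hhalf : ∀ z : ZMod p, (x + y) / 2 = z ↔ x + y = 2 * z := by
        intro z
        rw [div_eq_iff h2', mul_comm]
      constructor
      · rintro (h5 | ⟨l, hl, h5⟩)
        · right; right
          exact ⟨hij, by rw [hhalf] at h5; simpa using h5⟩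
        · right; left
          refine ⟨l, hl, hij, ?_⟩
          rw [hhalf, hhalf] at h5
          exact h5
      · rintro (⟨_, _, _, h5, _⟩ | ⟨l, hl, _, h5⟩ | ⟨_, h5⟩)
        · exact absurd h5 hij
        · right
          refine ⟨l, hl, ?_⟩
          rw [hhalf, hhalf]
          exact h5
        · left
          rw [hhalf]
          simpa using h5

end Pool.Agent.H29.Bi
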