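import Pool.Agent.H29.Bi.Merge

set_option autoImplicit false

/-!
The forest containing the perfect matching.
-/

namespace Pool.Agent.H29.Bi

open Finset SimpleGraph H931R3.LA

variable {p : ℕ} [hp : Fact p.Prime]

/-- The perfect matching, the zigzag edges with radius in `S`, the chords of `Q`. -/
def QB (S Q : Set (ZMod p)) : SimpleGraph (VV p) where
  Adj u v := (u.1 ≠ v.1 ∧ u.2 + v.2 = 0) ∨
    (u ≠ v ∧ u.1 = v.1 ∧ u.2 + v.2 = 2 ∧ u.2 - 1 ∈ S ∧ v.2 - 1 ∈ S) ∨
    (u.1 ≠ v.1 ∧ u.2 = v.2 ∧ u.2 ∈ Q)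
  symm := ⟨fun u v h => by
    rcases h with h | h | h
    · exact Or.inl ⟨h.1.symm, by rw [add_comm]; exact h.2⟩
    · exact Or.inr (Or.inl ⟨h.1.symm, h.2.1.symm, by rw [add_comm]; exact h.2.2.1, h.2.2.2.2,
        h.2.2.2.1⟩)
    · exact Or.inr (Or.inr ⟨h.1.symm, h.2.1.symm, by rw [← h.2.1]; exact h.2.2⟩)⟩
  loopless := ⟨fun u h => by
    rcases h with h | h | h
    · exact h.1 rfl
    · exact h.1 rfl
    · exact h.1 rfl⟩

theorem QB_nb {S Q : Set (ZMod p)} {v u : VV p} (h : (QB S Q).Adj v u) :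
    u = (!v.1, -v.2) ∨ (v.2 - 1 ∈ S ∧ u = (v.1, 2 - v.2)) ∨ (v.2 ∈ Q ∧ u = (!v.1, v.2)) := by
  obtain ⟨j, y⟩ := u
  obtain ⟨h1, h2⟩ | ⟨_, h1, h2, h3, _⟩ | ⟨h1, h2, h3⟩ := h
  · left
    exact Prod.ext (not_eq h1) (by show y = _; linear_combination h2)
  · right; left
    exact ⟨h3, Prod.ext h1.symm (by show y = _; linear_combination h2)⟩
  · right; right
    exact ⟨h3, Prod.ext (not_eq h1) h2.symm⟩

theorem QB_deg {S Q : Set (ZMod p)} (hQ : ∀ x ∈ Q, x - 1 ∉ S) (v : VV p) :
    ((QB S Q).neighborSet v).ncard ≤ 2 := by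
  by_cases hS : v.2 - 1 ∈ S
  · refine deg2 (!v.1, -v.2) (v.1, 2 - v.2) ?_
    intro u hu
    rcases QB_nb hu with h | h | h
    · exact Or.inl h
    · exact Or.inr h.2
    · exact absurd hS (hQ _ h.1)
  · refine deg2 (!v.1, -v.2) (!v.1, v.2) ?_
    intro u hu
    rcases QB_nb hu with h | h | h
    · exact Or.inl h
    · exact absurd h.1 hS
    · exact Or.inr h.2

/-- Both vertices with second coordinate `x` reach an end. -/
def PE (S Q : Set (ZMod p)) (x : ZMod p) : Prop :=
  ∀ i : Bool, ∃ w, (QB S Q).Reachable (i, x) w ∧ ((QB S Q).neighborSet w).ncard ≤ 1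

theorem PE_M {S Q : Set (ZMod p)} {x : ZMod p} (h : PE S Q (-x)) : PE S Q x := by
  intro i
  obtain ⟨w, h1, h2⟩ := h (!i)
  refine ⟨w, Reachable.trans (Adj.reachable (Or.inl ⟨by simp, ?_⟩)) h1, h2⟩
  show x + -x = 0
  ring

theorem PE_E {S Q : Set (ZMod p)} (hS : ∀ x ∈ S, -x ∈ S) {x : ZMod p} (hx : x - 1 ∈ S)
    (h : PE S Q (2 - x)) : PE S Q x := by
  intro i
  obtain ⟨w, h1, h2⟩ := h i
  by_cases he : x = 2 - x
  · rw [← he] at h1
    exact ⟨w, h1, h2⟩
  · refine ⟨w, Reachable.trans (v := (i, 2 - x)) (Adj.reachable (Or.inr (Or.inl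
      ⟨fun h' => he (congrArg Prod.snd h'), rfl, ?_, hx, ?_⟩))) h1, h2⟩
    · show x + (2 - x) = 2
      ring
    · have h3 := hS _ hx
      have e : -(x - 1) = 2 - x - 1 := by ring
      rwa [e] at h3

theorem PE_end {S Q : Set (ZMod p)} {x : ZMod p} (hS : x - 1 ∉ S) (hQ : x ∉ Q) : PE S Q x := by
  intro i
  refine ⟨(i, x), Reachable.refl _, deg1 (!i, -x) ?_⟩
  intro u hu
  rcases QB_nb hu with h | h | h
  · exact h
  · exact absurd h.1 hS
  · exact absurd h.1 hQ

theorem QB_lf_of {S Q : Set (ZMod p)} (hQ : ∀ x ∈ Q, x - 1 ∉ S) (h : ∀ x, PE S Q x) :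
    IsLF (QB S Q) := isLF_of_end (QB_deg hQ) (fun v => h v.2 v.1)

/-- The vertices in the order of the path. -/
theorem PE_all (h2 : p ≠ 2) {S Q : Set (ZMod p)}
    (h0 : ∀ n : ℕ, n < p → Even n → PE S Q ((n : ZMod p) + 1))
    (h1 : ∀ n : ℕ, n < p → ¬ Even n → PE S Q (-(n : ZMod p))) (x : ZMod p) : PE S Q x := by
  have hpo : ¬ Even p := by
    intro h
    exact h2 ((Nat.Prime.even_iff hp.out).1 h)
  have hlt := ZMod.val_lt x
  by_cases hx : Even x.val
  · by_cases h3 : x.val = 0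
    · have h4 : x = 0 := (ZMod.val_eq_zero x).1 h3
      have h5 := h0 (p - 1) (by omega) (by
        rw [Nat.even_sub (by omega)]
        simp [hpo])
      have e : ((p - 1 : ℕ) : ZMod p) + 1 = 0 := by
        have : ((p - 1 + 1 : ℕ) : ZMod p) = 0 := by
          rw [Nat.sub_add_cancel (by omega)]
          exact ZMod.natCast_self p
        push_cast at this
        exact this
      rw [h4, ← e]
      exact h5
    · have h5 := h1 (p - x.val) (by omega) (by
        rw [Nat.even_sub hlt.le]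
        simp [hpo, hx])
      have e : -((p - x.val : ℕ) : ZMod p) = x := by
        rw [Nat.cast_sub hlt.le, ZMod.natCast_self, ZMod.natCast_zmod_val]
        ring
      rwa [e] at h5
  · have h3 : 1 ≤ x.val := by
      rcases Nat.eq_zero_or_pos x.val with h | h
      · rw [h] at hx
        exact absurd Even.zero hx
      · exact h
    have h5 := h0 (x.val - 1) (by omega) (by
      rw [Nat.even_sub h3]
      simp [hx])
    have e : ((x.val - 1 : ℕ) : ZMod p) + 1 = x := by
      rw [Nat.cast_sub h3, ZMod.natCast_zmod_val]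
      push_cast
      ring
    rwa [e] at h5

/-- Going down along the path to a position `c`. -/
theorem PE_down {S Q : Set (ZMod p)} (hS : ∀ x ∈ S, -x ∈ S) (c : ℕ)
    (hce : Even c) (hcS : (c : ZMod p) ∉ S)
    (hQ : ∀ n : ℕ, c ≤ n → n < p → Even n → (n : ZMod p) + 1 ∉ Q) :
    ∀ n : ℕ, c ≤ n → n < p → (Even n → PE S Q ((n : ZMod p) + 1)) ∧
      (¬ Even n → PE S Q (-(n : ZMod p))) := by
  intro n hn
  induction n, hn using Nat.le_induction with
  | base =>
    intro hlt
    refine ⟨fun _ => PE_end ?_ (hQ c le_rfl hlt hce), fun h => absurd hce h⟩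
    rwa [add_sub_cancel_right]
  | succ n hn ih =>
    intro hlt
    obtain ⟨ih1, ih2⟩ := ih (by omega)
    refine ⟨fun he => ?_, fun ho => ?_⟩
    · by_cases hmem : ((n + 1 : ℕ) : ZMod p) ∈ S
      · refine PE_E hS (by rwa [add_sub_cancel_right]) ?_
        have h3 := ih2 (by
          intro h
          exact (Nat.even_add_one.1 he) h)
        have e : 2 - (((n + 1 : ℕ) : ZMod p) + 1) = -(n : ZMod p) := by push_cast; ring
        rwa [e]
      · refine PE_end (by rwa [add_sub_cancel_right]) (hQ _ (by omega) hlt he)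
    · refine PE_M ?_
      have h3 := ih1 (by
        by_contra h
        exact ho (Nat.even_add_one.2 h))
      have e : - -((n + 1 : ℕ) : ZMod p) = (n : ZMod p) + 1 := by push_cast; ring
      rwa [e]

/-- Going up along the path to a position `c`. -/
theorem PE_up {S Q : Set (ZMod p)} (hS : ∀ x ∈ S, -x ∈ S) (c : ℕ) (hcp : c < p)
    (hce : Even c) (hcS : (c : ZMod p) ∉ S)
    (hQ : ∀ n : ℕ, n < p → ¬ Even n → -(n : ZMod p) ∉ Q) :
    ∀ k n : ℕ, n + k + 1 = c → (Even n → PE S Q ((n : ZMod p) + 1)) ∧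
      (¬ Even n → PE S Q (-(n : ZMod p))) := by
  intro k
  induction k with
  | zero =>
    intro n hn
    have ho : ¬ Even n := by
      rw [← hn] at hce
      exact Nat.even_add_one.1 hce
    refine ⟨fun h => absurd h ho, fun _ => PE_end ?_ (hQ n (by omega) ho)⟩
    intro h
    apply hcS
    have h3 := hS _ h
    have e : -(-(n : ZMod p) - 1) = (c : ZMod p) := by
      rw [← hn]
      push_cast
      ring
    rwa [e] at h3
  | succ k ih =>
    intro n hn
    obtain ⟨ih1, ih2⟩ := ih (n + 1) (by omega)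
    refine ⟨fun he => ?_, fun ho => ?_⟩
    · refine PE_M ?_
      have h3 := ih2 (by
        intro h
        exact (Nat.even_add_one.1 h) he)
      have e : -((n : ZMod p) + 1) = -((n + 1 : ℕ) : ZMod p) := by push_cast; ring
      rwa [e]
    · by_cases hmem : -(n : ZMod p) - 1 ∈ S
      · refine PE_E hS hmem ?_
        have h3 := ih1 (Nat.even_add_one.2 ho)
        have e : 2 - -(n : ZMod p) = ((n + 1 : ℕ) : ZMod p) + 1 := by push_cast; ring
        rwa [e]
      · exact PE_end hmem (hQ n (by omega) ho)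

/-- All chords in the upper half. -/
theorem QB_lf_right (h2 : p ≠ 2) {S Q : Set (ZMod p)} (hS : ∀ x ∈ S, -x ∈ S) (h0 : (0 : ZMod p) ∉ S)
    (hQS : ∀ x ∈ Q, x - 1 ∉ S) (hQ : ∀ n : ℕ, n < p → Even n → (n : ZMod p) + 1 ∉ Q) :
    IsLF (QB S Q) := by
  have h := PE_down (Q := Q) hS 0 Even.zero (by simpa using h0) (fun n _ => hQ n)
  exact QB_lf_of hQS (PE_all h2 (fun n hn he => (h n (by omega) hn).1 he)
    (fun n hn ho => (h n (by omega) hn).2 ho))

/-- All chords in the lower half, below the position `c`. -/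
theorem QB_lf_left (h2 : p ≠ 2) {S Q : Set (ZMod p)} (hS : ∀ x ∈ S, -x ∈ S)
    (hQS : ∀ x ∈ Q, x - 1 ∉ S) (c : ℕ) (hcp : c < p) (hce : Even c) (hcS : (c : ZMod p) ∉ S)
    (hQ : ∀ x ∈ Q, ¬ Even x.val ∧ x.val < c) : IsLF (QB S Q) := by
  have hpo : ¬ Even p := by
    intro h
    exact h2 ((Nat.Prime.even_iff hp.out).1 h)
  have hd := PE_down (Q := Q) hS c hce hcS (by
    intro n hn hlt he hmem
    obtain ⟨h3, h4⟩ := hQ _ hmem
    by_cases h5 : n + 1 < p
    · have e : ((n : ZMod p) + 1).val = n + 1 := by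
        have : ((n + 1 : ℕ) : ZMod p).val = n + 1 := ZMod.val_cast_of_lt h5
        push_cast at this
        exact this
      omega
    · have h6 : n + 1 = p := by omega
      have e : (n : ZMod p) + 1 = 0 := by
        have : ((n + 1 : ℕ) : ZMod p) = 0 := by rw [h6]; exact ZMod.natCast_self p
        push_cast at this
        exact this
      rw [e, ZMod.val_zero] at h3
      exact h3 Even.zero)
  have hu := PE_up (Q := Q) hS c hcp hce hcS (by
    intro n hlt ho hmem
    obtain ⟨h3, _⟩ := hQ _ hmem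
    apply h3
    have hn0 : (n : ZMod p) ≠ 0 := nat_ne (by
      rcases Nat.eq_zero_or_pos n with h | h
      · rw [h] at ho; exact absurd Even.zero ho
      · exact h) hlt
    have : NeZero (n : ZMod p) := ⟨hn0⟩
    rw [ZMod.val_neg_of_ne_zero, ZMod.val_cast_of_lt hlt, Nat.even_sub hlt.le]
    simp [hpo, ho])
  refine QB_lf_of hQS (PE_all h2 (fun n hn he => ?_) (fun n hn ho => ?_))
  · by_cases h : c ≤ n
    · exact (hd n h hn).1 he
    · exact (hu (c - n - 1) n (by omega)).1 he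
  · by_cases h : c ≤ n
    · exact (hd n h hn).2 ho
    · exact (hu (c - n - 1) n (by omega)).2 ho

end Pool.Agent.H29.Bi
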